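import Pool.Agent.N782.GN.StmT

/-!
# Project GN (helper782), II: the bilinear part of Vaughan's identity.  Basic facts.
-/

set_option autoImplicit false

namespace Pool.Agent.N277.GN

open Finset
open Pool.Agent.H304R3.HK (UH bb LamK)
open Pool.Agent.N782.GN

theorem nz_mul (a b : ZI) : nz (a * b) = nz a * nz b := by
  unfold nz
  rw [Zsqrtd.norm_mul]
  push_cast
  rfl

theorem nz_natCast (g : ℕ) : nz ((g : ℕ) : ZI) = (g : ℝ) ^ 2 := by
  rw [nz_eq]
  have h1 : (((g : ℕ) : ZI)).re = (g : ℤ) := Zsqrtd.re_natCast g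
  have h2 : (((g : ℕ) : ZI)).im = 0 := Zsqrtd.im_natCast g
  rw [h1, h2]
  push_cast
  ring

theorem one_le_nz {z : ZI} (hz : z ≠ 0) : 1 ≤ nz z := by
  unfold nz
  have h1 : (0 : ℤ) < Zsqrtd.norm z := GaussianInt.norm_pos.2 hz
  exact_mod_cast h1

theorem nz_pos {z : ZI} (hz : z ≠ 0) : 0 < nz z := lt_of_lt_of_le one_pos (one_le_nz hz)

theorem abs_re_le (z : ZI) : |(z.re : ℝ)| ≤ Real.sqrt (nz z) := by
  apply Real.abs_le_sqrt
  rw [nz_eq]
  nlinarith [sq_nonneg (z.im : ℝ)]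

theorem abs_im_le (z : ZI) : |(z.im : ℝ)| ≤ Real.sqrt (nz z) := by
  apply Real.abs_le_sqrt
  rw [nz_eq]
  nlinarith [sq_nonneg (z.re : ℝ)]

theorem card_bl (X : ℝ) (hX : 1 ≤ X) : ((bl X).card : ℝ) ≤ 9 * X := by
  classical
  have h0 : 1 ≤ Real.sqrt X := by
    rw [show (1 : ℝ) = Real.sqrt 1 by simp]
    exact Real.sqrt_le_sqrt hX
  set n : ℕ := ⌊Real.sqrt X⌋₊ with hn
  have h1 : (bl X).card ≤ (2 * n + 1) ^ 2 := by
    unfold bl
    refine (card_filter_le _ _).trans (card_image_le.trans ?_)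
    rw [card_product, Int.card_Icc, ← hn]
    have : ((n : ℤ) + 1 - -(n : ℤ)).toNat = 2 * n + 1 := by omega
    rw [this, sq]
  have h2 : (n : ℝ) ≤ Real.sqrt X := Nat.floor_le (Real.sqrt_nonneg _)
  have h3 : ((bl X).card : ℝ) ≤ (2 * (n : ℝ) + 1) ^ 2 := by exact_mod_cast h1
  have h4 : (Real.sqrt X) ^ 2 = X := Real.sq_sqrt (by linarith)
  have h5 : (0 : ℝ) ≤ n := Nat.cast_nonneg n
  nlinarith

theorem aW_nonneg (hm : S_MUB) (W : ℝ) (v : ZI) : 0 ≤ aW W v := by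
  unfold aW
  exact sum_nonneg fun c _ => (hm.2.2.2.2.2 c).1

theorem aW_le (hm : S_MUB) (W : ℝ) {v : ZI} (hv : v ≠ 0) : aW W v ≤ 4 * Real.log (nz v) := by
  classical
  rw [← hm.2.2.2.2.1 v hv]
  unfold aW
  apply sum_le_sum_of_subset_of_nonneg
  · intro c hc
    rw [mem_filter] at hc ⊢
    exact ⟨hc.1, hc.2.1⟩
  · intro c _ _
    exact (hm.2.2.2.2.2 c).1

theorem aW_zero (W : ℝ) {v : ZI} (hv : nz v ≤ W) : aW W v = 0 := by
  classical
  unfold aW
  rw [filter_eq_empty_iff.2, sum_empty]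
  rintro c hc ⟨-, h2⟩
  have := ((mem_bl _ _).1 hc).2
  linarith

theorem mu_mul (hm : S_MUB) {g : ℕ} (hg : 1 ≤ g) {w : ZI} (hw : w ≠ 0) (hc : ct w = 1) :
    mu (((g : ℕ) : ZI) * w) = mu ((g : ℕ) : ZI) * be g w := by
  have hg0 : ((g : ℕ) : ZI) ≠ 0 := by
    have : g ≠ 0 := by omega
    exact_mod_cast this
  unfold be
  by_cases h : IsCoprime w ((g : ℕ) : ZI)
  · rw [if_pos ⟨hc, h⟩, hm.1 _ _ h.symm]
  · rw [if_neg (fun h' => h h'.2), hm.2.1 _ _ hg0 hw (fun h' => h h'.symm), mul_zero]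

theorem abs_be_le (g : ℕ) (w : ZI) : |be g w| ≤ 1 := by
  unfold be
  split_ifs
  · exact abs_mu_le w
  · simp

theorem psi_nonneg (D x : ℝ) : 0 ≤ psi D x := le_max_left _ _

theorem psi_le (D x : ℝ) : psi D x ≤ 1 := by
  unfold psi
  exact max_le zero_le_one (min_le_left _ _)

theorem psi_zero {D x : ℝ} (hD : 0 ≤ D) (hx : 1 ≤ x) : psi D x = 0 := by
  unfold psi
  apply max_eq_left
  refine (min_le_right _ _).trans ?_
  nlinarith

theorem psi_one {D x : ℝ} (hD : 0 < D) (hx : x ≤ 1 - 1 / D) : psi D x = 1 := by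
  unfold psi
  have h1 : 1 ≤ D * (1 - x) := by
    have : D * (1 / D) = 1 := by field_simp
    nlinarith
  rw [min_eq_left h1]
  norm_num

theorem Phi_nonneg (x : ℝ) : 0 ≤ Phi x := le_max_left _ _

theorem Phi_one {x : ℝ} (h1 : 1 ≤ x) (h2 : x ≤ 2) : Phi x = 1 := by
  unfold Phi
  rw [min_eq_left (le_min (by linarith) (by linarith))]
  norm_num

/-- the elements with `X < N(z) ≤ Z` -/
noncomputable def bq (X Z : ℝ) : Finset ZI := (bl Z).filter (fun w => X < nz w)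

theorem mem_bq {X Z : ℝ} {z : ZI} : z ∈ bq X Z ↔ z ≠ 0 ∧ nz z ≤ Z ∧ X < nz z := by
  unfold bq
  rw [mem_filter, mem_bl, and_assoc]

theorem sum_bq_add {X Y Z : ℝ} (h1 : X ≤ Y) (h2 : Y ≤ Z) (f : ZI → ℝ) :
    ∑ w ∈ bq X Y, f w + ∑ w ∈ bq Y Z, f w = ∑ w ∈ bq X Z, f w := by
  classical
  rw [← sum_union]
  · congr 1
    ext z
    rw [mem_union, mem_bq, mem_bq, mem_bq]
    constructor
    · rintro (⟨h, h', h''⟩ | ⟨h, h', h''⟩)
      · exact ⟨h, h'.trans h2, h''⟩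
      · exact ⟨h, h', lt_of_le_of_lt h1 h''⟩
    · rintro ⟨h, h', h''⟩
      by_cases hz : nz z ≤ Y
      · exact Or.inl ⟨h, hz, h''⟩
      · exact Or.inr ⟨h, h', not_le.1 hz⟩
  · rw [disjoint_left]
    intro z hz hz'
    have h3 := (mem_bq.1 hz).2.1
    have h4 := (mem_bq.1 hz').2.2
    linarith

theorem sum_bq_pow {X : ℝ} (hX : 0 ≤ X) (f : ZI → ℝ) (I : ℕ) :
    ∑ i ∈ range I, ∑ w ∈ bq (4 ^ i * X) (4 * (4 ^ i * X)), f w = ∑ w ∈ bq X (4 ^ I * X), f w := by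
  induction I with
  | zero =>
    rw [range_zero, sum_empty, eq_comm]
    apply sum_eq_zero
    intro w hw
    have := mem_bq.1 hw
    simp only [pow_zero, one_mul] at this
    linarith [this.2.1, this.2.2]
  | succ n ih =>
    rw [sum_range_succ, ih]
    have h1 : (1 : ℝ) ≤ 4 ^ n := one_le_pow₀ (by norm_num)
    have e : (4 : ℝ) ^ (n + 1) * X = 4 * (4 ^ n * X) := by ring
    rw [e]
    apply sum_bq_add
    · nlinarith
    · nlinarith [mul_nonneg (show (0 : ℝ) ≤ 4 ^ n by positivity) hX]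

/-- pairs with product in a box -/
theorem pair_count (S1 S2 : Finset ZI) (Z : Finset ZI) (hZ : ∀ z ∈ Z, z ≠ 0) (f : ZI → ZI → ℝ) (K : ℝ)
    (hK : 0 ≤ K) (hf : ∀ b ∈ S1, ∀ v ∈ S2, |f b v| ≤ K) (hf0 : ∀ b ∈ S1, ∀ v ∈ S2, f b v ≠ 0 → b * v ∈ Z) :
    |∑ b ∈ S1, ∑ v ∈ S2, f b v| ≤ K * ∑ z ∈ Z, (dv z : ℝ) := by
  classical
  have h1 : |∑ b ∈ S1, ∑ v ∈ S2, f b v| ≤ ∑ b ∈ S1, ∑ v ∈ S2, ∑ z ∈ Z, if b * v = z then K else 0 := by
    refine (abs_sum_le_sum_abs _ _).trans (sum_le_sum fun b hb => ?_)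
    refine (abs_sum_le_sum_abs _ _).trans (sum_le_sum fun v hv => ?_)
    rw [sum_ite_eq]
    by_cases h : b * v ∈ Z
    · rw [if_pos h]
      exact hf b hb v hv
    · rw [if_neg h]
      by_contra h'
      apply h
      apply hf0 b hb v hv
      intro h''
      apply h'
      rw [h'', abs_zero]
  refine h1.trans ?_
  have h2 : ∑ b ∈ S1, ∑ v ∈ S2, ∑ z ∈ Z, (if b * v = z then K else 0) =
      ∑ z ∈ Z, ∑ b ∈ S1, ∑ v ∈ S2, if b * v = z then K else 0 := by
    rw [eq_comm, sum_comm]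
    apply sum_congr rfl
    intro b _
    rw [sum_comm]
  rw [h2, mul_sum]
  apply sum_le_sum
  intro z hz
  have hz0 := hZ z hz
  have h3 : ∀ b ∈ S1, ∑ v ∈ S2, (if b * v = z then K else 0) ≤
      if b ∈ (bl (nz z)).filter (fun d => d ∣ z) then K else 0 := by
    intro b _
    by_cases hb : ∃ v, b * v = z
    · obtain ⟨v0, hv0⟩ := hb
      have hb0 : b ≠ 0 := by
        rintro rfl
        rw [zero_mul] at hv0
        exact hz0 hv0.symm
      have hv00 : v0 ≠ 0 := by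
        rintro rfl
        rw [mul_zero] at hv0
        exact hz0 hv0.symm
      have hmem : b ∈ (bl (nz z)).filter (fun d => d ∣ z) := by
        rw [mem_filter, mem_bl]
        refine ⟨⟨hb0, ?_⟩, ⟨v0, hv0.symm⟩⟩
        rw [← hv0, nz_mul]
        have := one_le_nz hv00
        have := nz_nonneg b
        nlinarith
      rw [if_pos hmem]
      have e : ∀ v ∈ S2, (if b * v = z then K else 0) = if v = v0 then K else 0 := by
        intro v _
        have : b * v = z ↔ v = v0 := by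
          rw [← hv0]
          exact mul_right_inj' hb0
        by_cases hv : v = v0
        · rw [if_pos hv, if_pos (this.2 hv)]
        · rw [if_neg hv, if_neg (fun h => hv (this.1 h))]
      rw [sum_congr rfl e, sum_ite_eq']
      split_ifs
      · exact le_rfl
      · exact hK
    · rw [sum_eq_zero]
      · split_ifs
        · exact hK
        · exact le_rfl
      · intro v _
        rw [if_neg]
        intro h
        exact hb ⟨v, h⟩
  refine (sum_le_sum h3).trans ?_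
  rw [← sum_filter, sum_const, nsmul_eq_mul, mul_comm]
  apply mul_le_mul_of_nonneg_left _ hK
  unfold dv
  have h4 : (S1.filter (fun b => b ∈ (bl (nz z)).filter (fun d => d ∣ z))) ⊆ (bl (nz z)).filter (fun d => d ∣ z) := by
    intro b hb
    exact (mem_filter.1 hb).2
  exact_mod_cast card_le_card h4

/-- pairs with product in a box, `S_DIV` inserted -/
theorem box (h2 : S_DIV) : ∃ C : ℝ, 0 < C ∧ ∀ (M L x1 x2 K ℓ : ℝ) (S1 S2 : Finset ZI) (f : ZI → ZI → ℝ),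
    0 < M → 0 ≤ L → L ≤ M → x1 ≤ x2 → |x1| ≤ M → |x2| ≤ M → 0 ≤ K → 0 ≤ ℓ → Real.log (2 * M) ≤ ℓ →
    (∀ b ∈ S1, ∀ v ∈ S2, |f b v| ≤ K) →
    (∀ b ∈ S1, ∀ v ∈ S2, f b v ≠ 0 → 1 ≤ (b * v).re ∧ (((b * v).re : ℤ) : ℝ) ≤ L ∧
      x1 ≤ (((b * v).im : ℤ) : ℝ) ∧ (((b * v).im : ℤ) : ℝ) ≤ x2) →
    |∑ b ∈ S1, ∑ v ∈ S2, f b v| ≤ K * (C * (L * (x2 - x1 + 1) * ℓ + M * Real.sqrt M)) := by
  classical
  obtain ⟨C, hC, h⟩ := h2
  refine ⟨4 * C, by positivity, ?_⟩
  intro M L x1 x2 K ℓ S1 S2 f hM hL hLM h12 hx1 hx2 hK hℓ hlog hf hf0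
  have hs : 0 ≤ M * Real.sqrt M := by positivity
  have hrhs : 0 ≤ K * (4 * C * (L * (x2 - x1 + 1) * ℓ + M * Real.sqrt M)) := by
    have : 0 ≤ x2 - x1 + 1 := by linarith
    positivity
  by_cases hL1 : 1 ≤ L
  · have hM1 : 1 ≤ M := hL1.trans hLM
    set m1 : ℤ := ⌈x1⌉ - 1 with hm1
    set m2 : ℤ := ⌊x2⌋ with hm2
    have a1 : (m1 : ℝ) < x1 := by
      have := Int.ceil_lt_add_one x1
      rw [hm1]
      push_cast
      linarith
    have a1' : x1 - 1 ≤ (m1 : ℝ) := by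
      have := Int.le_ceil x1
      rw [hm1]
      push_cast
      linarith
    have a2 : (m2 : ℝ) ≤ x2 := Int.floor_le x2
    have a2' : x2 - 1 < (m2 : ℝ) := Int.sub_one_lt_floor x2
    have a3 : m1 ≤ m2 := by
      rw [hm2]
      apply Int.le_floor.2
      linarith
    rw [abs_le] at hx1 hx2
    have b1 : |(m1 : ℝ)| ≤ 2 * M := by
      rw [abs_le]
      constructor <;> linarith
    have b2 : |(m2 : ℝ)| ≤ 2 * M := by
      rw [abs_le]
      constructor <;> linarith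
    have key := h L (2 * M) m1 m2 (by linarith) hL1 (by linarith) a3 b1 b2
    set Z : Finset ZI := ((Icc 1 ⌊L⌋) ×ˢ (Ioc m1 m2)).image (fun p : ℤ × ℤ => (⟨p.1, p.2⟩ : ZI)) with hZ
    have c1 : ∑ z ∈ Z, (dv z : ℝ) = ∑ l ∈ Icc 1 ⌊L⌋, ∑ m ∈ Ioc m1 m2, (dv (⟨l, m⟩ : ZI) : ℝ) := by
      rw [hZ, sum_image]
      · rw [sum_product]
      · rintro ⟨p, q⟩ _ ⟨p', q'⟩ _ hpq
        have e1 := congrArg Zsqrtd.re hpq
        have e2 := congrArg Zsqrtd.im hpq
        simp only at e1 e2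
        rw [e1, e2]
    have c2 := pair_count S1 S2 Z (by
      intro z hz
      rw [hZ, mem_image] at hz
      obtain ⟨p, hp, rfl⟩ := hz
      intro h0
      have e1 := congrArg Zsqrtd.re h0
      rw [mem_product, mem_Icc] at hp
      simp only [Zsqrtd.re_zero] at e1
      omega) f K hK hf (by
      intro b hb v hv hne
      obtain ⟨d1, d2, d3, d4⟩ := hf0 b hb v hv hne
      rw [hZ, mem_image]
      refine ⟨((b * v).re, (b * v).im), ?_, rfl⟩
      rw [mem_product, mem_Icc, mem_Ioc]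
      refine ⟨⟨d1, Int.le_floor.2 d2⟩, ?_, Int.le_floor.2 d4⟩
      have : (m1 : ℝ) < (((b * v).im : ℤ) : ℝ) := by linarith
      exact_mod_cast this)
    refine c2.trans (mul_le_mul_of_nonneg_left ?_ hK)
    rw [c1]
    refine key.trans ?_
    have e1 : L * ((m2 : ℝ) - m1) * Real.log (2 * M) ≤ L * (x2 - x1 + 1) * ℓ := by
      have e2 : L * ((m2 : ℝ) - m1) ≤ L * (x2 - x1 + 1) := mul_le_mul_of_nonneg_left (by linarith) hL
      have e3 : 0 ≤ Real.log (2 * M) := Real.log_nonneg (by linarith)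
      have e4 : 0 ≤ x2 - x1 + 1 := by linarith
      exact mul_le_mul e2 hlog e3 (by positivity)
    have e2 : 2 * M * Real.sqrt (2 * M) ≤ 4 * (M * Real.sqrt M) := by
      have e3 : Real.sqrt (2 * M) ≤ 2 * Real.sqrt M := by
        rw [show 2 * Real.sqrt M = Real.sqrt (4 * M) by
          rw [show (4 : ℝ) * M = 2 ^ 2 * M by norm_num, Real.sqrt_mul (by norm_num), Real.sqrt_sq (by norm_num)]]
        exact Real.sqrt_le_sqrt (by linarith)
      nlinarith
    have e5 : 0 ≤ L * (x2 - x1 + 1) * ℓ := by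
      have e4 : 0 ≤ x2 - x1 + 1 := by linarith
      positivity
    nlinarith
  · have h0 : ∑ b ∈ S1, ∑ v ∈ S2, f b v = 0 := by
      apply sum_eq_zero
      intro b hb
      apply sum_eq_zero
      intro v hv
      by_contra hne
      obtain ⟨d1, d2, -, -⟩ := hf0 b hb v hv hne
      have : (1 : ℝ) ≤ (((b * v).re : ℤ) : ℝ) := by exact_mod_cast d1
      linarith
    rw [h0, abs_zero]
    exact hrhs

end Pool.Agent.N277.GN
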