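import Pool.Agent.N277.GN.IIa

/-!
# Project GN (helper782), II: the bilinear part of Vaughan's identity.  Contents and blocks.
-/

set_option autoImplicit false

namespace Pool.Agent.N277.GN

open Finset
open Pool.Agent.H304R3.HK (UH bb LamK)
open Pool.Agent.N782.GN

theorem re_nat_mul (g : ℕ) (w : ZI) : (((g : ℕ) : ZI) * w).re = (g : ℤ) * w.re := by
  have h1 : (((g : ℕ) : ZI)).re = (g : ℤ) := Zsqrtd.re_natCast g
  have h2 : (((g : ℕ) : ZI)).im = 0 := Zsqrtd.im_natCast g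
  rw [Zsqrtd.re_mul, h1, h2]
  ring

theorem im_nat_mul (g : ℕ) (w : ZI) : (((g : ℕ) : ZI) * w).im = (g : ℤ) * w.im := by
  have h1 : (((g : ℕ) : ZI)).re = (g : ℤ) := Zsqrtd.re_natCast g
  have h2 : (((g : ℕ) : ZI)).im = 0 := Zsqrtd.im_natCast g
  rw [Zsqrtd.im_mul, h1, h2]
  ring

theorem ct_nat_mul (g : ℕ) (w : ZI) : ct (((g : ℕ) : ZI) * w) = g * ct w := by
  unfold ct
  rw [re_nat_mul, im_nat_mul, Int.gcd_mul_left]
  simp

theorem ct_pos {z : ZI} (hz : z ≠ 0) : 1 ≤ ct z := by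
  unfold ct
  rw [Nat.one_le_iff_ne_zero]
  intro h
  rw [Int.gcd_eq_zero_iff] at h
  apply hz
  exact Zsqrtd.ext h.1 h.2

theorem ct_exists {z : ZI} (hz : z ≠ 0) : ∃ w : ZI, w ≠ 0 ∧ ct w = 1 ∧ ((ct z : ℕ) : ZI) * w = z := by
  have h1 := ct_pos hz
  obtain ⟨a, ha⟩ : ((ct z : ℕ) : ℤ) ∣ z.re := Int.gcd_dvd_left _ _
  obtain ⟨b, hb⟩ : ((ct z : ℕ) : ℤ) ∣ z.im := Int.gcd_dvd_right _ _
  have e : ((ct z : ℕ) : ZI) * ⟨a, b⟩ = z := by
    apply Zsqrtd.ext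
    · rw [re_nat_mul, ← ha]
    · rw [im_nat_mul, ← hb]
  refine ⟨⟨a, b⟩, ?_, ?_, e⟩
  · intro h0
    rw [h0, mul_zero] at e
    exact hz e.symm
  · have h2 := ct_nat_mul (ct z) ⟨a, b⟩
    rw [e] at h2
    nlinarith

theorem ct_le {z : ZI} (hz : z ≠ 0) : ((ct z : ℕ) : ℝ) ≤ Real.sqrt (nz z) := by
  obtain ⟨w, hw, -, e⟩ := ct_exists hz
  have h1 : nz z = ((ct z : ℕ) : ℝ) ^ 2 * nz w := by
    conv_lhs => rw [← e]
    rw [nz_mul, nz_natCast]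
  have h2 := one_le_nz hw
  apply Real.le_sqrt_of_sq_le
  rw [h1]
  nlinarith [sq_nonneg ((ct z : ℕ) : ℝ)]

/-- decomposition according to the content -/
theorem content_sum (hm : S_MUB) (X Y : ℝ) (F : ZI → ℝ) (N : ℕ) (hN : Real.sqrt X ≤ N) :
    ∑ b ∈ bq Y X, mu b * F b =
      ∑ g ∈ Icc 1 N, mu ((g : ℕ) : ZI) *
        ∑ w ∈ bq (Y / (g : ℝ) ^ 2) (X / (g : ℝ) ^ 2), be g w * F (((g : ℕ) : ZI) * w) := by
  classical
  have h1 : ∀ b ∈ bq Y X, ct b ∈ Icc 1 N := by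
    intro b hb
    have hb' := mem_bq.1 hb
    rw [mem_Icc]
    refine ⟨ct_pos hb'.1, ?_⟩
    have h2 : ((ct b : ℕ) : ℝ) ≤ N := (ct_le hb'.1).trans ((Real.sqrt_le_sqrt hb'.2.1).trans hN)
    exact_mod_cast h2
  rw [← sum_fiberwise_of_maps_to h1]
  apply sum_congr rfl
  intro g hg
  have hg1 : 1 ≤ g := (mem_Icc.1 hg).1
  have hgR : (0 : ℝ) < (g : ℝ) ^ 2 := by
    have : (0 : ℝ) < g := by exact_mod_cast hg1
    positivity
  have hg0 : ((g : ℕ) : ZI) ≠ 0 := by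
    have : g ≠ 0 := by omega
    exact_mod_cast this
  have e1 : (bq Y X).filter (fun b => ct b = g) =
      ((bq (Y / (g : ℝ) ^ 2) (X / (g : ℝ) ^ 2)).filter (fun w => ct w = 1)).image
        (fun w => ((g : ℕ) : ZI) * w) := by
    ext b
    rw [mem_filter, mem_image]
    constructor
    · rintro ⟨hb, hc⟩
      have hb' := mem_bq.1 hb
      obtain ⟨w, hw, hw1, e⟩ := ct_exists hb'.1
      rw [hc] at e
      have e2 : nz b = (g : ℝ) ^ 2 * nz w := by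
        rw [← e, nz_mul, nz_natCast]
      refine ⟨w, ?_, e⟩
      rw [mem_filter, mem_bq]
      refine ⟨⟨hw, ?_, ?_⟩, hw1⟩
      · rw [le_div_iff₀ hgR, mul_comm, ← e2]
        exact hb'.2.1
      · rw [div_lt_iff₀ hgR, mul_comm, ← e2]
        exact hb'.2.2
    · rintro ⟨w, hw, rfl⟩
      rw [mem_filter, mem_bq] at hw
      obtain ⟨⟨h3, h4, h5⟩, h6⟩ := hw
      rw [mem_bq]
      refine ⟨⟨mul_ne_zero hg0 h3, ?_, ?_⟩, ?_⟩
      · rw [nz_mul, nz_natCast, mul_comm]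
        exact (le_div_iff₀ hgR).1 h4
      · rw [nz_mul, nz_natCast, mul_comm]
        exact (div_lt_iff₀ hgR).1 h5
      · rw [ct_nat_mul, h6, mul_one]
  rw [e1, sum_image (fun x _ y _ h => mul_left_cancel₀ hg0 h), mul_sum, sum_filter]
  apply sum_congr rfl
  intro w hw
  have hw0 := (mem_bq.1 hw).1
  by_cases h6 : ct w = 1
  · rw [if_pos h6, mu_mul hm hg1 hw0 h6]
    ring
  · rw [if_neg h6]
    unfold be
    rw [if_neg (fun h => h6 h.1)]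
    ring

/-- the sums do not depend on the upper bound if the function has small support -/
theorem sum_bq_eq {X T Z1 Z2 : ℝ} (f : ZI → ℝ) (hf : ∀ w, w ≠ 0 → T ≤ nz w → f w = 0) (h1 : T ≤ Z1) (h2 : T ≤ Z2) :
    ∑ w ∈ bq X Z1, f w = ∑ w ∈ bq X Z2, f w := by
  have key : ∀ Z : ℝ, T ≤ Z → ∑ w ∈ bq X T, f w = ∑ w ∈ bq X Z, f w := by
    intro Z hZ
    apply sum_subset
    · intro w hw
      rw [mem_bq] at hw ⊢
      exact ⟨hw.1, hw.2.1.trans hZ, hw.2.2⟩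
    · intro w hw hw'
      rw [mem_bq] at hw hw'
      apply hf w hw.1
      by_contra h
      exact hw' ⟨hw.1, (not_le.1 h).le, hw.2.2⟩
  rw [← key Z1 h1, ← key Z2 h2]

/-- the summand -/
noncomputable def hh (W D M : ℝ) (g : ℕ) (lam : ℤ → ℝ) (w v : ZI) : ℝ :=
  aW W v * (be g w * lam (w * v).re * psi D (Real.sqrt (nz (w * v)) / M))

/-- the blocks -/
noncomputable def Bl (W D M R P : ℝ) (g : ℕ) (lam : ℤ → ℝ) : ℝ :=
  ∑ w ∈ bq (R ^ 2) (4 * R ^ 2), ∑ v ∈ bq (P ^ 2) (4 * P ^ 2), hh W D M g lam w v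

theorem hh_zero {W D M : ℝ} {g : ℕ} {lam : ℤ → ℝ} {w v : ZI} (hD : 0 ≤ D) (hM : 0 < M)
    (h : M ^ 2 ≤ nz w * nz v) : hh W D M g lam w v = 0 := by
  unfold hh
  rw [psi_zero hD, mul_zero, mul_zero]
  rw [le_div_iff₀ hM, one_mul, nz_mul]
  exact Real.le_sqrt_of_sq_le h

theorem hh_zero' {W D M : ℝ} {g : ℕ} {lam : ℤ → ℝ} {w v : ZI} (h : nz v ≤ W) : hh W D M g lam w v = 0 := by
  unfold hh
  rw [aW_zero W h, zero_mul]

theorem hh_abs (hm : S_MUB) {W D M : ℝ} {g : ℕ} {lam : ℤ → ℝ} {w v : ZI} (hl : ∀ l, |lam l| ≤ 1) (hv : v ≠ 0) :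
    |hh W D M g lam w v| ≤ 4 * Real.log (nz v) := by
  unfold hh
  have h1 : |be g w * lam (w * v).re * psi D (Real.sqrt (nz (w * v)) / M)| ≤ 1 := by
    rw [abs_mul, abs_mul, abs_of_nonneg (psi_nonneg _ _)]
    have a1 := abs_be_le g w
    have a2 := hl (w * v).re
    have a3 := psi_le D (Real.sqrt (nz (w * v)) / M)
    have a4 := psi_nonneg D (Real.sqrt (nz (w * v)) / M)
    calc |be g w| * |lam (w * v).re| * psi D (Real.sqrt (nz (w * v)) / M) ≤ 1 * 1 * 1 := by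
          gcongr
      _ = 1 := by norm_num
  rw [abs_mul, abs_of_nonneg (aW_nonneg hm W v)]
  have h2 := aW_le hm W hv
  have h3 := aW_nonneg hm W v
  calc aW W v * |be g w * lam (w * v).re * psi D (Real.sqrt (nz (w * v)) / M)| ≤ aW W v * 1 := by gcongr
    _ = aW W v := mul_one _
    _ ≤ _ := h2

theorem Bl_zero {W D M R P : ℝ} {g : ℕ} {lam : ℤ → ℝ} (hD : 0 ≤ D) (hM : 0 < M) (hR : 0 ≤ R) (hP : 0 ≤ P)
    (h : M ≤ R * P) : Bl W D M R P g lam = 0 := by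
  unfold Bl
  apply sum_eq_zero
  intro w hw
  apply sum_eq_zero
  intro v hv
  apply hh_zero hD hM
  have h1 := (mem_bq.1 hw).2.2
  have h2 := (mem_bq.1 hv).2.2
  calc M ^ 2 ≤ (R * P) ^ 2 := by gcongr
    _ = R ^ 2 * P ^ 2 := by ring
    _ ≤ nz w * nz v := mul_le_mul h1.le h2.le (sq_nonneg _) (nz_nonneg _)

/-- the statement of `S_T` for fixed constants -/
def TT (ε CT : ℝ) (a B' : ℕ) : Prop := ∀ (M L R P D : ℝ) (g : ℕ)
  (lam : ℤ → ℝ), 3 ≤ M → 1 ≤ L → L ≤ M ^ (1 - ε) → M / L * M ^ ε ≤ R → R ^ 2 ≤ M ^ (1 - ε) →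
  M / (Real.log M) ^ B' ≤ R * P → R * P ≤ M → 1 ≤ D → D ≤ (Real.log M) ^ B' → 1 ≤ g → (g : ℝ) ≤ (Real.log M) ^ B' →
  Lm L lam →
  ∑ v ∈ bl (9 * P ^ 2), Phi (Real.sqrt (nz v) / P) * (∑ w ∈ (bl (4 * R ^ 2)).filter (fun w => R ^ 2 < nz w),
    be g w * lam (w * v).re * psi D (Real.sqrt (nz (w * v)) / M)) ^ 2 ≤ CT * L ^ 2 * R ^ 2 / (Real.log M) ^ (2 * a)

theorem Bl_good (hm : S_MUB) {ε CT : ℝ} {a B' : ℕ} (hCT : 0 < CT) (hT : TT ε CT a B')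
    (M L R P D W ℓ : ℝ) (g : ℕ)
    (lam : ℤ → ℝ) (hM : 3 ≤ M) (hL : 1 ≤ L) (hLM : L ≤ M ^ (1 - ε)) (hR : M / L * M ^ ε ≤ R)
    (hR2 : R ^ 2 ≤ M ^ (1 - ε))
    (hRP : M / (Real.log M) ^ B' ≤ R * P) (hRP' : R * P ≤ M) (hD : 1 ≤ D) (hD' : D ≤ (Real.log M) ^ B')
    (hg : 1 ≤ g) (hg' : (g : ℝ) ≤ (Real.log M) ^ B') (hlam : Lm L lam) (hP : 1 ≤ P)
    (hℓ : 4 * Real.log (4 * P ^ 2) ≤ ℓ) :
    |Bl W D M R P g lam| ≤ 6 * Real.sqrt CT * ℓ * (L * (R * P)) / (Real.log M) ^ a := by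
  classical
  have hlog : 0 < Real.log M := Real.log_pos (by linarith)
  have hR0 : 0 ≤ R := by
    refine le_trans ?_ hR
    positivity
  have hℓ0 : 0 ≤ ℓ := by
    refine le_trans ?_ hℓ
    have : (1 : ℝ) ≤ 4 * P ^ 2 := by nlinarith
    have := Real.log_nonneg this
    linarith
  have key := hT M L R P D g lam hM hL hLM hR hR2 hRP hRP' hD hD' hg hg' hlam
  set inner : ZI → ℝ := fun v => ∑ w ∈ (bl (4 * R ^ 2)).filter (fun w => R ^ 2 < nz w),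
    be g w * lam (w * v).re * psi D (Real.sqrt (nz (w * v)) / M) with hin
  have e1 : Bl W D M R P g lam = ∑ v ∈ bq (P ^ 2) (4 * P ^ 2), aW W v * inner v := by
    unfold Bl
    rw [sum_comm]
    apply sum_congr rfl
    intro v _
    rw [hin]
    simp only
    rw [mul_sum]
    rfl
  have h1 : ∑ v ∈ bq (P ^ 2) (4 * P ^ 2), inner v ^ 2 ≤ CT * L ^ 2 * R ^ 2 / (Real.log M) ^ (2 * a) := by
    refine le_trans ?_ key
    have s1 : bq (P ^ 2) (4 * P ^ 2) ⊆ bl (9 * P ^ 2) := by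
      intro v hv
      have hv' := mem_bq.1 hv
      rw [mem_bl]
      refine ⟨hv'.1, hv'.2.1.trans ?_⟩
      nlinarith [sq_nonneg P]
    refine le_trans ?_ (sum_le_sum_of_subset_of_nonneg s1 ?_)
    · apply sum_le_sum
      intro v hv
      have hv' := mem_bq.1 hv
      rw [Phi_one, one_mul]
      · rw [le_div_iff₀ (by linarith), one_mul]
        exact Real.le_sqrt_of_sq_le hv'.2.2.le
      · rw [div_le_iff₀ (by linarith)]
        apply Real.sqrt_le_iff.2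
        refine ⟨by linarith, ?_⟩
        nlinarith [hv'.2.1]
    · intro v _ _
      exact mul_nonneg (Phi_nonneg _) (sq_nonneg _)
  have h2 : ∑ v ∈ bq (P ^ 2) (4 * P ^ 2), (aW W v) ^ 2 ≤ 36 * P ^ 2 * ℓ ^ 2 := by
    have b1 : ∀ v ∈ bq (P ^ 2) (4 * P ^ 2), (aW W v) ^ 2 ≤ ℓ ^ 2 := by
      intro v hv
      have hv' := mem_bq.1 hv
      have c1 := aW_le hm W hv'.1
      have c2 := aW_nonneg hm W v
      have c3 : Real.log (nz v) ≤ Real.log (4 * P ^ 2) := Real.log_le_log (nz_pos hv'.1) hv'.2.1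
      have c4 : aW W v ≤ ℓ := by linarith
      gcongr
    refine (sum_le_sum b1).trans ?_
    rw [sum_const, nsmul_eq_mul]
    have c5 : ((bq (P ^ 2) (4 * P ^ 2)).card : ℝ) ≤ 9 * (4 * P ^ 2) := by
      refine le_trans ?_ (card_bl (4 * P ^ 2) (by nlinarith))
      exact_mod_cast card_filter_le _ _
    have c6 : 0 ≤ ℓ ^ 2 := sq_nonneg _
    nlinarith
  have h3 : (Bl W D M R P g lam) ^ 2 ≤ (6 * Real.sqrt CT * ℓ * (L * (R * P)) / (Real.log M) ^ a) ^ 2 := by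
    rw [e1]
    refine (sum_mul_sq_le_sq_mul_sq _ _ _).trans ?_
    have c1 : 0 ≤ ∑ v ∈ bq (P ^ 2) (4 * P ^ 2), inner v ^ 2 := sum_nonneg fun v _ => sq_nonneg _
    refine (mul_le_mul h2 h1 c1 (by positivity)).trans (le_of_eq ?_)
    rw [div_pow, ← pow_mul, mul_comm a 2, mul_pow, mul_pow, mul_pow, Real.sq_sqrt hCT.le]
    ring
  apply abs_le_of_sq_le_sq h3
  positivity

/-- the statement of `box` for a fixed constant -/
def BX (C : ℝ) : Prop := ∀ (M L x1 x2 K ℓ : ℝ) (S1 S2 : Finset ZI) (f : ZI → ZI → ℝ),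
    0 < M → 0 ≤ L → L ≤ M → x1 ≤ x2 → |x1| ≤ M → |x2| ≤ M → 0 ≤ K → 0 ≤ ℓ → Real.log (2 * M) ≤ ℓ →
    (∀ b ∈ S1, ∀ v ∈ S2, |f b v| ≤ K) →
    (∀ b ∈ S1, ∀ v ∈ S2, f b v ≠ 0 → 1 ≤ (b * v).re ∧ (((b * v).re : ℤ) : ℝ) ≤ L ∧
      x1 ≤ (((b * v).im : ℤ) : ℝ) ∧ (((b * v).im : ℤ) : ℝ) ≤ x2) →
    |∑ b ∈ S1, ∑ v ∈ S2, f b v| ≤ K * (C * (L * (x2 - x1 + 1) * ℓ + M * Real.sqrt M))

theorem hh_ne {W D M L : ℝ} {g : ℕ} {lam : ℤ → ℝ} {w v : ZI} (hlam : Lm L lam) (h : hh W D M g lam w v ≠ 0) :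
    1 ≤ (w * v).re ∧ (((w * v).re : ℤ) : ℝ) ≤ L := by
  have h1 : lam (w * v).re ≠ 0 := by
    intro h1
    apply h
    unfold hh
    rw [h1]
    ring
  by_contra h2
  apply h1
  apply hlam.2
  by_contra h3
  rw [not_or] at h3
  exact h2 ⟨by omega, not_lt.1 h3.2⟩

theorem Bl_bad (hm : S_MUB) {C1 : ℝ} (hB : BX C1) (M L R P D W H K ℓ : ℝ) (g : ℕ) (lam : ℤ → ℝ)
    (hM : 0 < M) (hL : 0 ≤ L) (hLM : L ≤ M) (hlam : Lm L lam) (hH : 4 * (R * P) ≤ H) (hHM : H ≤ M)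
    (hR : 0 ≤ R) (hP : 1 ≤ P) (hK : 4 * Real.log (4 * P ^ 2) ≤ K) (hℓ0 : 0 ≤ ℓ) (hℓ : Real.log (2 * M) ≤ ℓ) :
    |Bl W D M R P g lam| ≤ K * (C1 * (L * (2 * H + 1) * ℓ + M * Real.sqrt M)) := by
  have hK0 : 0 ≤ K := by
    refine le_trans ?_ hK
    have : (1 : ℝ) ≤ 4 * P ^ 2 := by nlinarith
    have := Real.log_nonneg this
    linarith
  have hRP : 0 ≤ R * P := mul_nonneg hR (by linarith)
  have hH0 : 0 ≤ H := by linarith
  have e : H - -H + 1 = 2 * H + 1 := by ring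
  rw [← e]
  unfold Bl
  apply hB M L (-H) H K ℓ _ _ _ hM hL hLM (by linarith) (by rw [abs_neg, abs_of_nonneg hH0]; exact hHM)
    (by rw [abs_of_nonneg hH0]; exact hHM) hK0 hℓ0 hℓ
  · intro w _ v hv
    have hv' := mem_bq.1 hv
    refine (hh_abs hm hlam.1 hv'.1).trans ?_
    have c3 : Real.log (nz v) ≤ Real.log (4 * P ^ 2) := Real.log_le_log (nz_pos hv'.1) hv'.2.1
    linarith
  · intro w hw v hv hne
    obtain ⟨h1, h2⟩ := hh_ne hlam hne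
    have hw' := mem_bq.1 hw
    have hv' := mem_bq.1 hv
    have h3 : |(((w * v).im : ℤ) : ℝ)| ≤ H := by
      refine (abs_im_le (w * v)).trans ?_
      refine le_trans ?_ hH
      apply Real.sqrt_le_iff.2
      refine ⟨by linarith, ?_⟩
      rw [nz_mul]
      calc nz w * nz v ≤ (4 * R ^ 2) * (4 * P ^ 2) :=
            mul_le_mul hw'.2.1 hv'.2.1 (nz_nonneg v) (by positivity)
        _ = (4 * (R * P)) ^ 2 := by ring
    rw [abs_le] at h3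
    exact ⟨h1, h2, h3.1, h3.2⟩

end Pool.Agent.N277.GN
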