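import Pool.Agent.N277.GN.IIb

/-!
# Project GN (helper782), II: the bilinear part of Vaughan's identity.  Sums for fixed content.
-/

set_option autoImplicit false

namespace Pool.Agent.N277.GN

open Finset
open Pool.Agent.H304R3.HK (UH bb LamK)
open Pool.Agent.N782.GN

/-- the smooth weight -/
noncomputable def GG (lam : ℤ → ℝ) (D M : ℝ) (z : ZI) : ℝ := lam z.re * psi D (Real.sqrt (nz z) / M)

/-- the contribution of the content `g` -/
noncomputable def Tg (W D M Y X : ℝ) (g : ℕ) (lam : ℤ → ℝ) : ℝ :=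
  ∑ w ∈ bq (Y / (g : ℝ) ^ 2) (X / (g : ℝ) ^ 2), be g w * ∑ v ∈ bl X, aW W v * GG lam D M (((g : ℕ) : ZI) * w * v)

/-- `λ_g(l) = λ(g l)` -/
def lg (g : ℕ) (lam : ℤ → ℝ) : ℤ → ℝ := fun l => lam ((g : ℤ) * l)

theorem Lm_lg {L : ℝ} {lam : ℤ → ℝ} (h : Lm L lam) {g : ℕ} (hg : 1 ≤ g) : Lm (L / g) (lg g lam) := by
  refine ⟨fun l => h.1 _, ?_⟩
  intro l hl
  have hgR : (0 : ℝ) < g := by exact_mod_cast hg
  apply h.2
  rcases hl with hl | hl
  · left
    have h1 : (1 : ℤ) ≤ g := by exact_mod_cast hg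
    have h2 : l ≤ 0 := by omega
    nlinarith
  · right
    rw [div_lt_iff₀ hgR] at hl
    push_cast
    linarith

theorem Tg_eq (W D M Y X : ℝ) (g : ℕ) (hg : 1 ≤ g) (lam : ℤ → ℝ) (hM : 0 < M) :
    Tg W D M Y X g lam = ∑ w ∈ bq (Y / (g : ℝ) ^ 2) (X / (g : ℝ) ^ 2), ∑ v ∈ bl X, hh W D (M / g) g (lg g lam) w v := by
  unfold Tg
  apply sum_congr rfl
  intro w _
  rw [mul_sum]
  apply sum_congr rfl
  intro v _
  unfold hh GG lg
  have hgR : (0 : ℝ) < g := by exact_mod_cast hg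
  have e1 : ((g : ℕ) : ZI) * w * v = ((g : ℕ) : ZI) * (w * v) := mul_assoc _ _ _
  have e2 : Real.sqrt (nz (((g : ℕ) : ZI) * (w * v))) / M = Real.sqrt (nz (w * v)) / (M / g) := by
    rw [nz_mul, nz_natCast, Real.sqrt_mul (by positivity), Real.sqrt_sq hgR.le]
    field_simp
  rw [e1, re_nat_mul, e2]
  ring

theorem Tg_small (W D M Y X : ℝ) (g : ℕ) (hg : 1 ≤ g) (lam : ℤ → ℝ) (hM : 1 ≤ M) (hD : 0 ≤ D) (hY : 0 ≤ Y)
    (hW : 0 ≤ W) (hX : M ^ 2 ≤ X) (I J : ℕ) (hI : M ^ 2 ≤ 4 ^ I * Y) (hJ : M ^ 2 ≤ 4 ^ J * W) :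
    Tg W D M Y X g lam = ∑ i ∈ range I, ∑ j ∈ range J,
      Bl W D (M / g) (2 ^ i * Real.sqrt Y / g) (2 ^ j * Real.sqrt W) g (lg g lam) := by
  classical
  have hg1 : (1 : ℝ) ≤ g := by exact_mod_cast hg
  have hgR : (0 : ℝ) < g := by linarith
  have hg2 : (0 : ℝ) < (g : ℝ) ^ 2 := by positivity
  have hMg : 0 < M / g := by positivity
  rw [Tg_eq W D M Y X g hg lam (by linarith)]
  set f := hh W D (M / g) g (lg g lam) with hf
  have s1 : ∀ w : ZI, w ≠ 0 → ∑ v ∈ bl X, f w v = ∑ v ∈ bq W (4 ^ J * W), f w v := by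
    intro w hw
    have h1 : ∑ v ∈ bq W X, f w v = ∑ v ∈ bl X, f w v := by
      unfold bq
      apply sum_filter_of_ne
      intro v _ hne
      by_contra h
      exact hne (hh_zero' (not_lt.1 h))
    rw [← h1]
    apply sum_bq_eq (T := M ^ 2) _ _ hX hJ
    intro v hv hMv
    apply hh_zero hD hMg
    rw [div_pow, div_le_iff₀ hg2]
    have h2 := one_le_nz hw
    have h3 : (1 : ℝ) ≤ (g : ℝ) ^ 2 := one_le_pow₀ hg1
    have h4 := nz_nonneg v
    calc M ^ 2 ≤ nz v := hMv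
      _ ≤ nz w * nz v := by nlinarith
      _ ≤ nz w * nz v * (g : ℝ) ^ 2 := by
          have : 0 ≤ nz w * nz v := by positivity
          nlinarith
  have s2 : ∑ w ∈ bq (Y / (g : ℝ) ^ 2) (X / (g : ℝ) ^ 2), ∑ v ∈ bl X, f w v =
      ∑ w ∈ bq (Y / (g : ℝ) ^ 2) (X / (g : ℝ) ^ 2), ∑ v ∈ bq W (4 ^ J * W), f w v := by
    apply sum_congr rfl
    intro w hw
    exact s1 w (mem_bq.1 hw).1
  rw [s2]
  have s3 : ∑ w ∈ bq (Y / (g : ℝ) ^ 2) (X / (g : ℝ) ^ 2), ∑ v ∈ bq W (4 ^ J * W), f w v =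
      ∑ w ∈ bq (Y / (g : ℝ) ^ 2) (4 ^ I * (Y / (g : ℝ) ^ 2)), ∑ v ∈ bq W (4 ^ J * W), f w v := by
    apply sum_bq_eq (T := M ^ 2 / (g : ℝ) ^ 2)
    · intro w hw hMw
      apply sum_eq_zero
      intro v hv
      apply hh_zero hD hMg
      rw [div_pow]
      have h2 := one_le_nz (mem_bq.1 hv).1
      have h4 := nz_nonneg w
      nlinarith
    · gcongr
    · rw [← mul_div_assoc]
      gcongr
  rw [s3, ← sum_bq_pow (by positivity)]
  apply sum_congr rfl
  intro i _
  have s4 : ∀ w : ZI, ∑ v ∈ bq W (4 ^ J * W), f w v = ∑ j ∈ range J, ∑ v ∈ bq (4 ^ j * W) (4 * (4 ^ j * W)), f w v :=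
    fun w => (sum_bq_pow hW _ _).symm
  rw [sum_congr rfl (fun w _ => s4 w), sum_comm]
  apply sum_congr rfl
  intro j _
  unfold Bl
  have e1 : (2 ^ i * Real.sqrt Y / (g : ℝ)) ^ 2 = 4 ^ i * (Y / (g : ℝ) ^ 2) := by
    rw [div_pow, mul_pow, Real.sq_sqrt hY, ← pow_mul, mul_comm i 2, pow_mul]
    norm_num
    ring
  have e2 : (2 ^ j * Real.sqrt W) ^ 2 = 4 ^ j * W := by
    rw [mul_pow, Real.sq_sqrt hW, ← pow_mul, mul_comm j 2, pow_mul]
    norm_num
  rw [e1, e2]

theorem psi_ne {D x : ℝ} (hD : 0 ≤ D) (h : psi D x ≠ 0) : x < 1 := by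
  by_contra h'
  exact h (psi_zero hD (not_lt.1 h'))

theorem log_two_sq {M : ℝ} (hM : 3 ≤ M) {v : ZI} (hv : v ∈ bl (2 * M ^ 2)) : 4 * Real.log (nz v) ≤ 12 * Real.log M := by
  have h1 := (mem_bl _ _).1 hv
  have h2 : Real.log (nz v) ≤ Real.log (M ^ 3) := by
    apply Real.log_le_log (nz_pos h1.1)
    have : 2 * M ^ 2 ≤ M ^ 3 := by nlinarith [sq_nonneg M]
    linarith [h1.2]
  rw [Real.log_pow] at h2
  push_cast at h2
  linarith

theorem log_two_mul {M : ℝ} (hM : 3 ≤ M) {g : ℕ} (hg : 1 ≤ g) : Real.log (2 * (M / g)) ≤ 2 * Real.log M := by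
  have hg1 : (1 : ℝ) ≤ g := by exact_mod_cast hg
  have h0 : 0 < M / g := by positivity
  have h1 : M / g ≤ M := div_le_self (by linarith) hg1
  have h2 : Real.log (2 * (M / g)) ≤ Real.log (M ^ 2) := by
    apply Real.log_le_log (by positivity)
    nlinarith
  rw [Real.log_pow] at h2
  push_cast at h2
  exact h2

theorem Tg_large (hm : S_MUB) {C1 : ℝ} (hC1 : 0 < C1) (hB : BX C1) (W D M Y L : ℝ) (g : ℕ) (hg : 1 ≤ g) (lam : ℤ → ℝ)
    (hM : 3 ≤ M) (hD : 0 ≤ D) (hL : 0 ≤ L) (hLM : L ≤ M) (hlam : Lm L lam) :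
    |Tg W D M Y (2 * M ^ 2) g lam| ≤
      12 * Real.log M * (C1 * ((2 * L * M / (g : ℝ) ^ 2 + L / g) * (2 * Real.log M) + M * Real.sqrt M / g)) := by
  have hg1 : (1 : ℝ) ≤ g := by exact_mod_cast hg
  have hgR : (0 : ℝ) < g := by linarith
  have hlog : 0 < Real.log M := Real.log_pos (by linarith)
  have hMg : 0 < M / g := by positivity
  rw [Tg_eq W D M Y _ g hg lam (by linarith)]
  have key := hB (M / g) (L / g) (-(M / g)) (M / g) (12 * Real.log M) (2 * Real.log M)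
    (bq (Y / (g : ℝ) ^ 2) (2 * M ^ 2 / (g : ℝ) ^ 2)) (bl (2 * M ^ 2)) (hh W D (M / g) g (lg g lam)) hMg
    (by positivity) (by gcongr) (by linarith) (by rw [abs_neg, abs_of_pos hMg]) (by rw [abs_of_pos hMg])
    (by positivity) (by positivity) (log_two_mul hM hg)
    (by
      intro w _ v hv
      refine (hh_abs hm (Lm_lg hlam hg).1 ((mem_bl _ _).1 hv).1).trans (log_two_sq hM hv))
    (by
      intro w _ v _ hne
      obtain ⟨h1, h2⟩ := hh_ne (Lm_lg hlam hg) hne
      have h3 : psi D (Real.sqrt (nz (w * v)) / (M / g)) ≠ 0 := by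
        intro h3
        apply hne
        unfold hh
        rw [h3]
        ring
      have h4 := psi_ne hD h3
      rw [div_lt_iff₀ hMg, one_mul] at h4
      have h5 := (abs_im_le (w * v)).trans h4.le
      rw [abs_le] at h5
      exact ⟨h1, h2, h5.1, h5.2⟩)
  refine key.trans ?_
  apply mul_le_mul_of_nonneg_left _ (by positivity)
  apply mul_le_mul_of_nonneg_left _ hC1.le
  apply add_le_add
  · apply mul_le_mul_of_nonneg_right _ (by positivity)
    apply le_of_eq
    field_simp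
    ring
  · rw [mul_div_right_comm]
    apply mul_le_mul_of_nonneg_left _ (by positivity)
    apply Real.sqrt_le_sqrt
    exact div_le_self (by linarith) hg1

/-- replacing the sharp cut-off by the smooth one -/
theorem smooth (hm : S_MUB) {C1 : ℝ} (hB : BX C1) (W D M Y L : ℝ) (lam : ℤ → ℝ)
    (hM : 3 ≤ M) (hD : 4 ≤ D) (hL : 0 ≤ L) (hLM : L ≤ M) (hLD : L ^ 2 * D ≤ M ^ 2) (hlam : Lm L lam) :
    |∑ b ∈ bq Y (2 * M ^ 2), ∑ v ∈ bl (2 * M ^ 2), mu b * aW W v * (Fz lam M (b * v) - GG lam D M (b * v))| ≤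
      2 * (12 * Real.log M * (C1 * (L * (3 * M / D + 1) * (2 * Real.log M) + M * Real.sqrt M))) := by
  classical
  have hlog : 0 < Real.log M := Real.log_pos (by linarith)
  set f : ZI → ZI → ℝ := fun b v => mu b * aW W v * (Fz lam M (b * v) - GG lam D M (b * v)) with hf
  have hf1 : ∀ b ∈ bq Y (2 * M ^ 2), ∀ v ∈ bl (2 * M ^ 2), |f b v| ≤ 12 * Real.log M := by
    intro b _ v hv
    have h1 := aW_nonneg hm W v
    have h2 := aW_le hm W ((mem_bl _ _).1 hv).1
    have h3 := log_two_sq hM hv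
    have h4 : |Fz lam M (b * v) - GG lam D M (b * v)| ≤ 1 := by
      unfold Fz GG
      have a1 := psi_nonneg D (Real.sqrt (nz (b * v)) / M)
      have a2 := psi_le D (Real.sqrt (nz (b * v)) / M)
      have a3 := hlam.1 (b * v).re
      split_ifs
      · rw [show lam (b * v).re - lam (b * v).re * psi D (Real.sqrt (nz (b * v)) / M) =
          lam (b * v).re * (1 - psi D (Real.sqrt (nz (b * v)) / M)) by ring, abs_mul]
        rw [abs_of_nonneg (show 0 ≤ 1 - psi D (Real.sqrt (nz (b * v)) / M) by linarith)]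
        nlinarith [abs_nonneg (lam (b * v).re)]
      · rw [zero_sub, abs_neg, abs_mul, abs_of_nonneg a1]
        nlinarith [abs_nonneg (lam (b * v).re)]
    rw [hf]
    simp only
    rw [abs_mul, abs_mul, abs_of_nonneg h1]
    have h5 := abs_mu_le b
    calc |mu b| * aW W v * |Fz lam M (b * v) - GG lam D M (b * v)| ≤ 1 * aW W v * 1 := by gcongr
      _ ≤ 12 * Real.log M := by linarith
  have hκ : (0 : ℝ) ≤ (1 - 3 / D) := by
    have : 3 / D ≤ 1 := by
      rw [div_le_one (by linarith)]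
      linarith
    linarith
  have hf2 : ∀ b v : ZI, f b v ≠ 0 → 1 ≤ (b * v).re ∧ (((b * v).re : ℤ) : ℝ) ≤ L ∧
      (1 - 3 / D) * M ≤ |(((b * v).im : ℤ) : ℝ)| ∧ |(((b * v).im : ℤ) : ℝ)| ≤ M := by
    intro b v hne
    have h1 : Fz lam M (b * v) - GG lam D M (b * v) ≠ 0 := by
      intro h1
      apply hne
      rw [hf]
      simp only
      rw [h1, mul_zero]
    have h2 : lam (b * v).re ≠ 0 := by
      intro h2
      apply h1
      unfold Fz GG
      rw [h2, zero_mul, sub_zero, ite_self]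
    have h3 : 1 ≤ (b * v).re ∧ (((b * v).re : ℤ) : ℝ) ≤ L := by
      by_contra h2'
      apply h2
      apply hlam.2
      by_contra h3
      rw [not_or] at h3
      exact h2' ⟨by omega, not_lt.1 h3.2⟩
    have h4 : |(((b * v).im : ℤ) : ℝ)| ≤ M := by
      by_contra h4
      apply h1
      unfold Fz GG
      rw [if_neg h4, psi_zero (by linarith)]
      · ring
      · rw [le_div_iff₀ (by linarith), one_mul]
        exact (not_le.1 h4).le.trans (abs_im_le _)
    refine ⟨h3.1, h3.2, ?_, h4⟩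
    by_contra h5
    apply h1
    have h5' := not_le.1 h5
    unfold Fz GG
    rw [if_pos h4, psi_one (by linarith)]
    · ring
    · rw [div_le_iff₀ (by linarith)]
      have hD1 : (0 : ℝ) ≤ 1 - 1 / D := by
        have : 1 / D ≤ 1 := by
          rw [div_le_one (by linarith)]
          linarith
        linarith
      apply Real.sqrt_le_iff.2
      refine ⟨by nlinarith, ?_⟩
      rw [nz_eq]
      have a1 : (((b * v).re : ℤ) : ℝ) ^ 2 ≤ L ^ 2 := by
        have : (1 : ℝ) ≤ (((b * v).re : ℤ) : ℝ) := by exact_mod_cast h3.1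
        have := h3.2
        gcongr
      have a2 : (((b * v).im : ℤ) : ℝ) ^ 2 ≤ ((1 - 3 / D) * M) ^ 2 := by
        rw [← sq_abs]
        have := abs_nonneg (((b * v).im : ℤ) : ℝ)
        gcongr
      have a3 : L ^ 2 ≤ M ^ 2 * (1 / D) := by
        rw [mul_one_div, le_div_iff₀ (by linarith)]
        exact hLD
      have a4 : 1 / D ≤ 1 / 4 := one_div_le_one_div_of_le (by norm_num) hD
      have a5 : 0 < 1 / D := by positivity
      have a6 : (3 : ℝ) / D = 3 * (1 / D) := by ring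
      rw [a6] at a2
      have a7 : ((1 - 1 / D) * M) ^ 2 - ((1 - 3 * (1 / D)) * M) ^ 2 - M ^ 2 * (1 / D) =
          M ^ 2 * (1 / D) * (3 - 8 * (1 / D)) := by ring
      have a8 : 0 ≤ M ^ 2 * (1 / D) * (3 - 8 * (1 / D)) := by
        apply mul_nonneg (by positivity)
        linarith
      linarith
  have e1 : ∑ b ∈ bq Y (2 * M ^ 2), ∑ v ∈ bl (2 * M ^ 2), f b v =
      ∑ b ∈ bq Y (2 * M ^ 2), ∑ v ∈ bl (2 * M ^ 2), (if 0 ≤ (b * v).im then f b v else 0) +
      ∑ b ∈ bq Y (2 * M ^ 2), ∑ v ∈ bl (2 * M ^ 2), (if 0 ≤ (b * v).im then 0 else f b v) := by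
    rw [← sum_add_distrib]
    apply sum_congr rfl
    intro b _
    rw [← sum_add_distrib]
    apply sum_congr rfl
    intro v _
    split_ifs <;> ring
  rw [e1]
  refine (abs_add_le _ _).trans ?_
  rw [two_mul (12 * Real.log M * _)]
  have hM0 : 0 < M := by linarith
  have hκM : 0 ≤ (1 - 3 / D) * M := by positivity
  have hκM' : (1 - 3 / D) * M ≤ M := by
    have : 0 ≤ 3 / D := by positivity
    nlinarith
  have hlg : Real.log (2 * M) ≤ 2 * Real.log M := by
    have := log_two_mul hM (le_refl 1)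
    simpa using this
  have e2 : (L * (3 * M / D + 1) * (2 * Real.log M) + M * Real.sqrt M) =
      (L * (M - (1 - 3 / D) * M + 1) * (2 * Real.log M) + M * Real.sqrt M) := by ring
  have e3 : (L * (3 * M / D + 1) * (2 * Real.log M) + M * Real.sqrt M) =
      (L * (-((1 - 3 / D) * M) - (-M) + 1) * (2 * Real.log M) + M * Real.sqrt M) := by ring
  apply add_le_add
  · rw [e2]
    apply hB M L ((1 - 3 / D) * M) M _ _ _ _ _ hM0 hL hLM hκM' (by rw [abs_of_nonneg hκM]; exact hκM')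
      (by rw [abs_of_pos hM0]) (by positivity) (by positivity) hlg
    · intro b hb v hv
      split_ifs
      · exact hf1 b hb v hv
      · rw [abs_zero]
        positivity
    · intro b hb v hv hne
      split_ifs at hne with h0
      · obtain ⟨h1, h2, h3, h4⟩ := hf2 b v hne
        have h5 : (0 : ℝ) ≤ (((b * v).im : ℤ) : ℝ) := by exact_mod_cast h0
        rw [abs_of_nonneg h5] at h3 h4
        exact ⟨h1, h2, h3, h4⟩
      · exact absurd rfl hne
  · rw [e3]
    apply hB M L (-M) (-((1 - 3 / D) * M)) _ _ _ _ _ hM0 hL hLM (by linarith) (by rw [abs_neg, abs_of_pos hM0])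
      (by rw [abs_neg, abs_of_nonneg hκM]; exact hκM') (by positivity) (by positivity) hlg
    · intro b hb v hv
      split_ifs
      · rw [abs_zero]
        positivity
      · exact hf1 b hb v hv
    · intro b hb v hv hne
      split_ifs at hne with h0
      · exact absurd rfl hne
      · obtain ⟨h1, h2, h3, h4⟩ := hf2 b v hne
        have h5 : (((b * v).im : ℤ) : ℝ) < 0 := by exact_mod_cast (not_le.1 h0)
        rw [abs_of_neg h5] at h3 h4
        exact ⟨h1, h2, by linarith, by linarith⟩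

end Pool.Agent.N277.GN
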