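import Pool.Agent.N277.GN.IIc

/-!
# Project GN (helper782), II: the bilinear part of Vaughan's identity.  All blocks.
-/

set_option autoImplicit false

namespace Pool.Agent.N277.GN

open Finset
open Pool.Agent.H304R3.HK (UH bb LamK)
open Pool.Agent.N782.GN

/-- `M` is large -/
structure Big (ε : ℝ) (A : ℕ) (M : ℝ) : Prop where
  h3 : 3 ≤ M
  hl : 16 ≤ Real.log M
  hp : (Real.log M) ^ (2 * A + 6) ≤ M ^ ε

theorem exists_big {ε : ℝ} (hε : 0 < ε) (A : ℕ) : ∃ M0 : ℝ, 3 ≤ M0 ∧ ∀ M : ℝ, M0 ≤ M → Big ε A M := by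
  have h1 := (isLittleO_log_rpow_rpow_atTop ((2 * A + 6 : ℕ) : ℝ) hε).bound (show (0 : ℝ) < 1 by norm_num)
  have h2 := Real.tendsto_log_atTop.eventually_ge_atTop 16
  have h3 := (h1.and (h2.and (Filter.eventually_ge_atTop (3 : ℝ))))
  rw [Filter.eventually_atTop] at h3
  obtain ⟨M0, hM0⟩ := h3
  refine ⟨max 3 M0, le_max_left _ _, ?_⟩
  intro M hM
  obtain ⟨a1, a2, a3⟩ := hM0 M ((le_max_right _ _).trans hM)
  refine ⟨a3, a2, ?_⟩
  rw [Real.rpow_natCast, one_mul, Real.norm_eq_abs, Real.norm_eq_abs] at a1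
  rw [abs_of_nonneg (by positivity), abs_of_nonneg (by positivity)] at a1
  exact a1

/-- the parameters -/
structure Par (ε : ℝ) (A : ℕ) (M L Y W : ℝ) (lam : ℤ → ℝ) : Prop where
  big : Big ε A M
  e0 : 0 < ε
  e4 : ε ≤ 1 / 4
  L1 : M ^ (1 / 2 + ε) ≤ L
  L2 : L ≤ M ^ (1 - ε)
  hY : (M / L) ^ 2 * M ^ (3 * ε) ≤ Y
  hW : M ^ (1 + ε) ≤ W
  hlam : Lm L lam

theorem Par.L_pos {ε : ℝ} {A : ℕ} {M L Y W : ℝ} {lam : ℤ → ℝ} (h : Par ε A M L Y W lam) : 0 < L := by
  have := h.big.h3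
  exact lt_of_lt_of_le (by positivity) h.L1

theorem Par.L_le {ε : ℝ} {A : ℕ} {M L Y W : ℝ} {lam : ℤ → ℝ} (h : Par ε A M L Y W lam) : L ≤ M := by
  have h3 := h.big.h3
  have h0 := h.e0
  refine h.L2.trans ?_
  calc M ^ (1 - ε) ≤ M ^ (1 : ℝ) := Real.rpow_le_rpow_of_exponent_le (by linarith) (by linarith)
    _ = M := Real.rpow_one M

theorem Par.Y_pos {ε : ℝ} {A : ℕ} {M L Y W : ℝ} {lam : ℤ → ℝ} (h : Par ε A M L Y W lam) : 1 ≤ Y := by
  have h3 := h.big.h3
  have h0 := h.e0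
  have h1 := h.L_pos
  refine le_trans ?_ h.hY
  have a1 : 1 ≤ M / L := by
    rw [le_div_iff₀ h1, one_mul]
    exact h.L_le
  have a2 : 1 ≤ M ^ (3 * ε) := Real.one_le_rpow (by linarith) (by linarith)
  nlinarith [one_le_pow₀ a1 (n := 2)]

theorem Par.W_one {ε : ℝ} {A : ℕ} {M L Y W : ℝ} {lam : ℤ → ℝ} (h : Par ε A M L Y W lam) : 1 ≤ W := by
  have h3 := h.big.h3
  have h0 := h.e0
  exact le_trans (Real.one_le_rpow (by linarith) (by linarith)) h.hW

theorem block (hm : S_MUB) {ε CT C1 : ℝ} {A : ℕ} (hCT : 0 < CT) (hT : TT (ε / 2) CT (2 * A + 5) (2 * A + 6))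
    (hC1 : 0 < C1) (hB : BX C1) {M L Y W : ℝ} {lam : ℤ → ℝ} (h : Par ε A M L Y W lam) (g : ℕ) (hg : 1 ≤ g)
    (hg' : (g : ℝ) ≤ (Real.log M) ^ (A + 2)) (i j : ℕ) :
    |Bl W ((Real.log M) ^ (A + 2)) (M / g) (2 ^ i * Real.sqrt Y / g) (2 ^ j * Real.sqrt W) g (lg g lam)| ≤
      96 * Real.sqrt CT * Real.log M * (L * M) / (Real.log M / 2) ^ (2 * A + 5) +
      16 * Real.log M * (C1 * (L * (8 * M / (Real.log M / 2) ^ (2 * A + 6) + 1) * (2 * Real.log M) +
        M * Real.sqrt M)) := by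
  have h3 := h.big.h3
  have hε := h.e0
  have hL0 := h.L_pos
  have hLM := h.L_le
  have hY1 := h.Y_pos
  have hW1 := h.W_one
  set ℓ := Real.log M with hℓ
  have hl : 16 ≤ ℓ := h.big.hl
  have hℓ0 : 0 < ℓ := by linarith
  have hg1 : (1 : ℝ) ≤ g := by exact_mod_cast hg
  have hgR : (0 : ℝ) < g := by linarith
  have hM0 : 0 < M := by linarith
  have hM1 : 1 ≤ M := by linarith
  have hE1 : 0 ≤ 96 * Real.sqrt CT * ℓ * (L * M) / (ℓ / 2) ^ (2 * A + 5) := by positivity
  have hE2 : 0 ≤ 16 * ℓ * (C1 * (L * (8 * M / (ℓ / 2) ^ (2 * A + 6) + 1) * (2 * ℓ) + M * Real.sqrt M)) := by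
    positivity
  set q := M / g with hq
  have hq0 : 0 < q := by positivity
  have hqM : q ≤ M := div_le_self hM0.le hg1
  set R := 2 ^ i * Real.sqrt Y / g with hR
  set P := 2 ^ j * Real.sqrt W with hP
  set D := ℓ ^ (A + 2) with hD
  have hD1 : 1 ≤ D := one_le_pow₀ (by linarith)
  have hR0 : 0 ≤ R := by positivity
  have hP0 : 0 ≤ P := by positivity
  have h2j : (1 : ℝ) ≤ 2 ^ j := one_le_pow₀ (by norm_num)
  have h2i : (1 : ℝ) ≤ 2 ^ i := one_le_pow₀ (by norm_num)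
  have hsW : 1 ≤ Real.sqrt W := Real.one_le_sqrt.2 hW1
  have hP1 : 1 ≤ P := by
    rw [hP]
    nlinarith
  have hPW : W ≤ P ^ 2 := by
    rw [hP, mul_pow, Real.sq_sqrt (by linarith)]
    have : (1 : ℝ) ≤ (2 ^ j) ^ 2 := one_le_pow₀ h2j
    nlinarith
  -- `g ≤ M^ε`
  have hgM : (g : ℝ) ≤ M ^ ε := by
    refine hg'.trans (le_trans ?_ h.big.hp)
    exact pow_le_pow_right₀ (by linarith) (by omega)
  have hlogg : Real.log g ≤ ε * ℓ := by
    rw [hℓ, ← Real.log_rpow hM0]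
    exact Real.log_le_log hgR hgM
  have hlogq : ℓ / 2 ≤ Real.log q := by
    rw [hq, Real.log_div hM0.ne' hgR.ne']
    have : ε * ℓ ≤ 1 / 4 * ℓ := mul_le_mul_of_nonneg_right h.e4 hℓ0.le
    rw [← hℓ]
    linarith
  have hlogq0 : 0 < Real.log q := by linarith
  have hq3 : 3 ≤ q := by
    have e1 := Real.add_one_le_exp (Real.log q)
    rw [Real.exp_log hq0] at e1
    linarith
  -- comparison of logarithms
  have hpow : ∀ n : ℕ, (ℓ / 2) ^ n ≤ (Real.log q) ^ n := fun n => pow_le_pow_left₀ (by linarith) hlogq n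
  have hDq : D ≤ (Real.log q) ^ (2 * A + 6) := by
    refine le_trans ?_ (hpow _)
    have e1 : (ℓ / 2) ^ (2 * A + 6) = ℓ ^ (A + 2) * (ℓ ^ (A + 4) / 2 ^ (2 * A + 6)) := by
      rw [div_pow, ← mul_div_assoc, ← pow_add]
      congr 2
      omega
    rw [e1, hD]
    apply le_mul_of_one_le_right (by positivity)
    rw [le_div_iff₀ (by positivity), one_mul]
    calc (2 : ℝ) ^ (2 * A + 6) ≤ 2 ^ (4 * (A + 4)) := pow_le_pow_right₀ (by norm_num) (by omega)
      _ = 16 ^ (A + 4) := by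
          rw [pow_mul]
          norm_num
      _ ≤ ℓ ^ (A + 4) := pow_le_pow_left₀ (by norm_num) hl _
  have h4q : 4 ≤ (Real.log q) ^ (2 * A + 6) := by
    calc (4 : ℝ) ≤ 8 ^ 1 := by norm_num
      _ ≤ 8 ^ (2 * A + 6) := pow_le_pow_right₀ (by norm_num) (by omega)
      _ ≤ (Real.log q) ^ (2 * A + 6) := pow_le_pow_left₀ (by norm_num) (by linarith) _
  -- powers of `q`
  have hqpow : M ^ (1 - ε) / g ≤ q ^ (1 - ε / 2) := by
    rw [hq, Real.div_rpow hM0.le hgR.le]
    have e1 : (g : ℝ) ^ (1 - ε / 2) ≤ g := by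
      calc (g : ℝ) ^ (1 - ε / 2) ≤ (g : ℝ) ^ (1 : ℝ) := Real.rpow_le_rpow_of_exponent_le hg1 (by linarith)
        _ = g := Real.rpow_one _
    have e2 : M ^ (1 - ε) ≤ M ^ (1 - ε / 2) := Real.rpow_le_rpow_of_exponent_le hM1 (by linarith)
    exact div_le_div₀ (by positivity) e2 (by positivity) e1
  have hLg1 : 1 ≤ L / g := by
    rw [le_div_iff₀ hgR, one_mul]
    refine hgM.trans (le_trans ?_ h.L1)
    exact Real.rpow_le_rpow_of_exponent_le hM1 (by linarith)
  have hLgM : L / g ≤ q ^ (1 - ε / 2) := by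
    refine le_trans ?_ hqpow
    gcongr
    exact h.L2
  have hRlow : q / (L / g) * q ^ (ε / 2) ≤ R := by
    have e1 : q / (L / g) = M / L := by
      rw [hq]
      field_simp
    rw [e1]
    have e2 : M / L * M ^ (3 * ε / 2) ≤ Real.sqrt Y := by
      apply Real.le_sqrt_of_sq_le
      refine le_trans (le_of_eq ?_) h.hY
      rw [mul_pow, ← Real.rpow_natCast (M ^ (3 * ε / 2)) 2, ← Real.rpow_mul hM0.le]
      congr 2
      push_cast
      ring
    have e3 : q ^ (ε / 2) ≤ M ^ (ε / 2) := Real.rpow_le_rpow hq0.le hqM (by linarith)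
    have e4 : M ^ (ε / 2) ≤ M ^ (3 * ε / 2) / g := by
      rw [le_div_iff₀ hgR]
      calc M ^ (ε / 2) * g ≤ M ^ (ε / 2) * M ^ ε := by gcongr
        _ = M ^ (3 * ε / 2) := by
            rw [← Real.rpow_add hM0]
            congr 1
            ring
    calc M / L * q ^ (ε / 2) ≤ M / L * (M ^ (3 * ε / 2) / g) := by
          gcongr
          exact e3.trans e4
      _ = M / L * M ^ (3 * ε / 2) / g := by ring
      _ ≤ Real.sqrt Y / g := by gcongr
      _ ≤ R := by
          rw [hR]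
          gcongr
          have := Real.sqrt_nonneg Y
          nlinarith
  have hR1 : 1 ≤ R := by
    refine le_trans ?_ hRlow
    have e1 : q / (L / g) = M / L := by
      rw [hq]
      field_simp
    rw [e1]
    have e2 : 1 ≤ M / L := by
      rw [le_div_iff₀ hL0, one_mul]
      exact hLM
    have e3 : 1 ≤ q ^ (ε / 2) := Real.one_le_rpow (by linarith) (by linarith)
    nlinarith
  -- three cases
  by_cases hc1 : q ≤ R * P
  · rw [Bl_zero (by linarith) hq0 hR0 hP0 hc1, abs_zero]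
    linarith
  have hc1' := (not_le.1 hc1).le
  have hPM : P ≤ M := by
    have : P ≤ R * P := by nlinarith
    linarith
  have hlogP : 4 * Real.log (4 * P ^ 2) ≤ 16 * ℓ := by
    have e1 : Real.log (4 * P ^ 2) ≤ Real.log (M ^ 4) := by
      apply Real.log_le_log (by positivity)
      have e2 : P ^ 2 ≤ M ^ 2 := by gcongr
      have e3 : 4 * M ^ 2 ≤ M ^ 4 := by
        have : M ^ 4 = M ^ 2 * M ^ 2 := by ring
        rw [this]
        apply mul_le_mul_of_nonneg_right _ (by positivity)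
        nlinarith
      linarith
    rw [Real.log_pow] at e1
    push_cast at e1
    linarith
  have hLml := Lm_lg h.hlam hg
  by_cases hc2 : q / (Real.log q) ^ (2 * A + 6) ≤ R * P
  · -- good blocks
    have hR2 : R ^ 2 ≤ q ^ (1 - ε / 2) := by
      refine le_trans ?_ hqpow
      have e1 : R ^ 2 * W ≤ q ^ 2 := by
        calc R ^ 2 * W ≤ R ^ 2 * P ^ 2 := by gcongr
          _ = (R * P) ^ 2 := by ring
          _ ≤ q ^ 2 := by gcongr
      have e2 : R ^ 2 * M ^ (1 + ε) ≤ q ^ 2 := le_trans (by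
        gcongr
        exact h.hW) e1
      have e3 : q ^ 2 ≤ M ^ (1 - ε) / g * M ^ (1 + ε) := by
        rw [div_mul_eq_mul_div, ← Real.rpow_add hM0]
        have e4 : (1 - ε + (1 + ε)) = ((2 : ℕ) : ℝ) := by
          push_cast
          ring
        rw [e4, Real.rpow_natCast, hq, div_pow]
        have e5 : (g : ℝ) ≤ (g : ℝ) ^ 2 := by nlinarith
        gcongr
      exact le_of_mul_le_mul_right (e2.trans e3) (by positivity)
    have key := Bl_good hm hCT hT q (L / g) R P D W (16 * ℓ) g (lg g lam) hq3 hLg1 hLgM hRlow hR2 hc2 hc1' hD1 hDq hg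
      (hg'.trans hDq) hLml hP1 hlogP
    refine key.trans ?_
    have e1 : 6 * Real.sqrt CT * (16 * ℓ) * (L / g * (R * P)) / (Real.log q) ^ (2 * A + 5) ≤
        96 * Real.sqrt CT * ℓ * (L * M) / (ℓ / 2) ^ (2 * A + 5) := by
      have e2 : L / g * (R * P) ≤ L * M := by
        have : L / g ≤ L := div_le_self hL0.le hg1
        have : R * P ≤ M := by linarith
        have : 0 ≤ R * P := by positivity
        gcongr
      have e3 : 6 * Real.sqrt CT * (16 * ℓ) * (L / g * (R * P)) ≤ 96 * Real.sqrt CT * ℓ * (L * M) := by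
        have : 6 * Real.sqrt CT * (16 * ℓ) = 96 * Real.sqrt CT * ℓ := by ring
        rw [this]
        gcongr
      exact div_le_div₀ (by positivity) e3 (by positivity) (hpow _)
    linarith
  · -- bad blocks
    have hc2' := (not_le.1 hc2).le
    set H := 4 * (q / (Real.log q) ^ (2 * A + 6)) with hH
    have hHq : H ≤ q := by
      rw [hH, ← mul_div_assoc, div_le_iff₀ (by positivity)]
      nlinarith
    have hHM : 2 * H ≤ 8 * M / (ℓ / 2) ^ (2 * A + 6) := by
      rw [hH]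
      have e1 : q / (Real.log q) ^ (2 * A + 6) ≤ M / (ℓ / 2) ^ (2 * A + 6) :=
        div_le_div₀ hM0.le hqM (by positivity) (hpow _)
      calc 2 * (4 * (q / (Real.log q) ^ (2 * A + 6))) ≤ 8 * (M / (ℓ / 2) ^ (2 * A + 6)) := by linarith
        _ = _ := by ring
    have key := Bl_bad hm hB q (L / g) R P D W H (16 * ℓ) (2 * ℓ) g (lg g lam) hq0 (by positivity)
      (by rw [hq]; gcongr) hLml (by rw [hH]; linarith) hHq hR0 hP1 hlogP (by positivity) (log_two_mul h3 hg)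
    refine key.trans ?_
    have e1 : 16 * ℓ * (C1 * (L / g * (2 * H + 1) * (2 * ℓ) + q * Real.sqrt q)) ≤
        16 * ℓ * (C1 * (L * (8 * M / (ℓ / 2) ^ (2 * A + 6) + 1) * (2 * ℓ) + M * Real.sqrt M)) := by
      apply mul_le_mul_of_nonneg_left _ (by positivity)
      apply mul_le_mul_of_nonneg_left _ hC1.le
      have hH0 : 0 ≤ H := by positivity
      have e2 : L / g ≤ L := div_le_self hL0.le hg1
      have e3 : q * Real.sqrt q ≤ M * Real.sqrt M := by
        have := Real.sqrt_le_sqrt hqM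
        gcongr
      have e4 : L / g * (2 * H + 1) * (2 * ℓ) ≤ L * (8 * M / (ℓ / 2) ^ (2 * A + 6) + 1) * (2 * ℓ) := by
        apply mul_le_mul_of_nonneg_right _ (by positivity)
        apply mul_le_mul e2 (by linarith) (by linarith) hL0.le
      linarith
    linarith

end Pool.Agent.N277.GN
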