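import Pool.Agent.N277.GN.IId

/-!
# Project GN (helper782), II: the bilinear part of Vaughan's identity.  Assembly.
-/

set_option autoImplicit false

namespace Pool.Agent.N277.GN

open Finset
open Pool.Agent.H304R3.HK (UH bb LamK)
open Pool.Agent.N782.GN

/-- the sum -/
noncomputable def SI (M Y W : ℝ) (lam : ℤ → ℝ) : ℝ :=
  ∑ b ∈ (bl (2 * M ^ 2)).filter (fun b => Y < nz b), ∑ v ∈ bl (2 * M ^ 2), mu b * aW W v * Fz lam M (b * v)

theorem SI_eq (hm : S_MUB) (M Y W D : ℝ) (lam : ℤ → ℝ) (N : ℕ) (hN : Real.sqrt (2 * M ^ 2) ≤ N) :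
    SI M Y W lam = ∑ b ∈ bq Y (2 * M ^ 2), ∑ v ∈ bl (2 * M ^ 2),
        mu b * aW W v * (Fz lam M (b * v) - GG lam D M (b * v)) +
      ∑ g ∈ Icc 1 N, mu ((g : ℕ) : ZI) * Tg W D M Y (2 * M ^ 2) g lam := by
  unfold Tg
  rw [← content_sum hm (2 * M ^ 2) Y (fun b => ∑ v ∈ bl (2 * M ^ 2), aW W v * GG lam D M (b * v)) N hN,
    ← sum_add_distrib]
  unfold SI bq
  apply sum_congr rfl
  intro b _
  rw [mul_sum, ← sum_add_distrib]
  apply sum_congr rfl
  intro v _
  ring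

theorem sum_one_div (n N : ℕ) : ∑ g ∈ Ioc n N, (1 : ℝ) / g ≤ 1 + Real.log N := by
  have h1 : ∑ g ∈ Ioc n N, (1 : ℝ) / g ≤ ∑ g ∈ Icc 1 N, (1 : ℝ) / g := by
    apply sum_le_sum_of_subset_of_nonneg
    · intro g hg
      rw [mem_Ioc] at hg
      rw [mem_Icc]
      omega
    · intro g _ _
      positivity
  refine h1.trans (le_trans (le_of_eq ?_) (harmonic_le_one_add_log N))
  rw [harmonic_eq_sum_Icc]
  push_cast
  simp only [one_div]

theorem sum_one_div_sq (n N : ℕ) (hn : 1 ≤ n) : ∑ g ∈ Ioc n N, (1 : ℝ) / (g : ℝ) ^ 2 ≤ 1 / n := by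
  by_cases h : n ≤ N
  · have h1 := sum_Ioc_inv_sq_le_sub (α := ℝ) (k := n) (n := N) (by omega) h
    have h2 : (0 : ℝ) ≤ (N : ℝ)⁻¹ := by positivity
    simp only [one_div]
    linarith
  · rw [Ioc_eq_empty (by omega), sum_empty]
    positivity

/-- large contents -/
theorem large_part (hm : S_MUB) {C1 : ℝ} (hC1 : 0 < C1) (hB : BX C1) (W D M Y L : ℝ) (lam : ℤ → ℝ)
    (hM : 3 ≤ M) (hD : 0 ≤ D) (hL : 0 ≤ L) (hLM : L ≤ M) (hlam : Lm L lam) (n N : ℕ) (hn : 1 ≤ n)
    (hN : 1 + Real.log N ≤ 3 * Real.log M) :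
    ∑ g ∈ Ioc n N, |Tg W D M Y (2 * M ^ 2) g lam| ≤
      12 * Real.log M * (C1 * ((2 * L * M * (1 / n) + L * (3 * Real.log M)) * (2 * Real.log M) +
        M * Real.sqrt M * (3 * Real.log M))) := by
  have hlog : 0 < Real.log M := Real.log_pos (by linarith)
  have h1 : ∑ g ∈ Ioc n N, |Tg W D M Y (2 * M ^ 2) g lam| ≤ ∑ g ∈ Ioc n N,
      12 * Real.log M * (C1 * ((2 * L * M * (1 / (g : ℝ) ^ 2) + L * (1 / g)) * (2 * Real.log M) +
        M * Real.sqrt M * (1 / g))) := by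
    apply sum_le_sum
    intro g hg
    rw [mem_Ioc] at hg
    refine (Tg_large hm hC1 hB W D M Y L g (by omega) lam hM hD hL hLM hlam).trans (le_of_eq ?_)
    ring
  refine h1.trans ?_
  rw [← mul_sum, ← mul_sum, sum_add_distrib, ← sum_mul, sum_add_distrib, ← mul_sum, ← mul_sum, ← mul_sum]
  have h2 := sum_one_div_sq n N hn
  have h3 := (sum_one_div n N).trans hN
  have h4 : 0 ≤ M * Real.sqrt M := by positivity
  apply mul_le_mul_of_nonneg_left _ (by positivity)
  apply mul_le_mul_of_nonneg_left _ hC1.le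
  gcongr

/-- small contents -/
theorem small_part (hm : S_MUB) {ε CT C1 : ℝ} {A : ℕ} (hCT : 0 < CT) (hT : TT (ε / 2) CT (2 * A + 5) (2 * A + 6))
    (hC1 : 0 < C1) (hB : BX C1) {M L Y W : ℝ} {lam : ℤ → ℝ} (h : Par ε A M L Y W lam) (n : ℕ)
    (hn : (n : ℝ) ≤ (Real.log M) ^ (A + 2)) :
    ∑ g ∈ Icc 1 n, |Tg W ((Real.log M) ^ (A + 2)) M Y (2 * M ^ 2) g lam| ≤
      (Real.log M) ^ (A + 2) * ((3 * Real.log M) * ((3 * Real.log M) *
      (96 * Real.sqrt CT * Real.log M * (L * M) / (Real.log M / 2) ^ (2 * A + 5) +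
      16 * Real.log M * (C1 * (L * (8 * M / (Real.log M / 2) ^ (2 * A + 6) + 1) * (2 * Real.log M) +
        M * Real.sqrt M))))) := by
  have h3 := h.big.h3
  have hL0 := h.L_pos
  have hY1 := h.Y_pos
  have hW1 := h.W_one
  set ℓ := Real.log M with hℓ
  have hl : 16 ≤ ℓ := h.big.hl
  have hℓ0 : 0 < ℓ := by linarith
  have hM0 : 0 < M := by linarith
  set E := 96 * Real.sqrt CT * ℓ * (L * M) / (ℓ / 2) ^ (2 * A + 5) +
      16 * ℓ * (C1 * (L * (8 * M / (ℓ / 2) ^ (2 * A + 6) + 1) * (2 * ℓ) + M * Real.sqrt M)) with hE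
  have hE0 : 0 ≤ E := by positivity
  set I := ⌈2 * ℓ⌉₊ with hI
  have hI1 : (I : ℝ) ≤ 3 * ℓ := by
    have := Nat.ceil_lt_add_one (show 0 ≤ 2 * ℓ by positivity)
    linarith
  have hI2 : M ^ 2 ≤ 4 ^ I := by
    have e1 : M ^ 2 = Real.exp (2 * ℓ) := by
      rw [hℓ, two_mul, Real.exp_add, Real.exp_log hM0]
      ring
    have e2 : Real.exp (2 * ℓ) ≤ Real.exp I := Real.exp_le_exp.2 (Nat.le_ceil _)
    have e3 : Real.exp I = (Real.exp 1) ^ I := by
      rw [← Real.exp_nat_mul, mul_one]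
    have e4 : (Real.exp 1) ^ I ≤ 4 ^ I := by
      apply pow_le_pow_left₀ (Real.exp_pos 1).le
      have := Real.exp_one_lt_d9
      linarith
    rw [e1]
    linarith [e3 ▸ e4]
  have key : ∀ g ∈ Icc 1 n, |Tg W (ℓ ^ (A + 2)) M Y (2 * M ^ 2) g lam| ≤ (3 * ℓ) * ((3 * ℓ) * E) := by
    intro g hg
    rw [mem_Icc] at hg
    have hgn : (g : ℝ) ≤ ℓ ^ (A + 2) := by
      refine le_trans ?_ hn
      exact_mod_cast hg.2
    rw [Tg_small W (ℓ ^ (A + 2)) M Y (2 * M ^ 2) g hg.1 lam (by linarith) (by positivity) (by linarith) (by linarith)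
      (by nlinarith [sq_nonneg M]) I I (by nlinarith) (by nlinarith)]
    refine (abs_sum_le_sum_abs _ _).trans ?_
    have s1 : ∀ i ∈ range I, |∑ j ∈ range I, Bl W (ℓ ^ (A + 2)) (M / g) (2 ^ i * Real.sqrt Y / g)
        (2 ^ j * Real.sqrt W) g (lg g lam)| ≤ (3 * ℓ) * E := by
      intro i _
      refine (abs_sum_le_sum_abs _ _).trans ?_
      refine (sum_le_sum fun j _ => block hm hCT hT hC1 hB h g hg.1 hgn i j).trans ?_
      rw [sum_const, card_range, nsmul_eq_mul]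
      gcongr
    refine (sum_le_sum s1).trans ?_
    rw [sum_const, card_range, nsmul_eq_mul]
    gcongr
  refine (sum_le_sum key).trans ?_
  rw [sum_const, Nat.card_Icc, nsmul_eq_mul]
  have : ((n + 1 - 1 : ℕ) : ℝ) = n := by simp
  rw [this]
  gcongr

/-- powers of the logarithm are absorbed -/
theorem absorb {ε : ℝ} {A : ℕ} {M L Y W : ℝ} {lam : ℤ → ℝ} (h : Par ε A M L Y W lam) (p : ℕ)
    (hp : p + A ≤ 2 * A + 6) : L * (Real.log M) ^ p ≤ L * M / (Real.log M) ^ A ∧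
      M * Real.sqrt M * (Real.log M) ^ p ≤ L * M / (Real.log M) ^ A := by
  have h3 := h.big.h3
  have hε := h.e0
  have hL0 := h.L_pos
  set ℓ := Real.log M with hℓ
  have hl : 16 ≤ ℓ := h.big.hl
  have hℓ0 : 0 < ℓ := by linarith
  have hM0 : 0 < M := by linarith
  have h1 : ℓ ^ (p + A) ≤ M ^ ε := (pow_le_pow_right₀ (by linarith) hp).trans h.big.hp
  have h2 : M ^ ε ≤ M := by
    calc M ^ ε ≤ M ^ (1 : ℝ) := Real.rpow_le_rpow_of_exponent_le (by linarith) (by linarith [h.e4])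
      _ = M := Real.rpow_one M
  constructor
  · rw [le_div_iff₀ (by positivity), mul_assoc, ← pow_add]
    apply mul_le_mul_of_nonneg_left _ hL0.le
    linarith
  · rw [le_div_iff₀ (by positivity)]
    have e1 : Real.sqrt M * ℓ ^ (p + A) ≤ L := by
      refine le_trans ?_ h.L1
      rw [Real.rpow_add hM0, ← Real.sqrt_eq_rpow]
      gcongr
    calc M * Real.sqrt M * ℓ ^ p * ℓ ^ A = M * (Real.sqrt M * ℓ ^ (p + A)) := by
          rw [pow_add]
          ring
      _ ≤ M * L := by gcongr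
      _ = L * M := mul_comm _ _

/-- the bound for large `M` -/
theorem main_large (hm : S_MUB) {ε CT C1 : ℝ} {A : ℕ} (hCT : 0 < CT) (hT : TT (ε / 2) CT (2 * A + 5) (2 * A + 6))
    (hC1 : 0 < C1) (hB : BX C1) {M L Y W : ℝ} {lam : ℤ → ℝ} (h : Par ε A M L Y W lam) :
    |SI M Y W lam| ≤ (216 * C1 + 204 * C1 + 864 * 2 ^ (2 * A + 5) * Real.sqrt CT +
      144 * C1 * (16 * 2 ^ (2 * A + 6) + 3)) * (L * M / (Real.log M) ^ A) := by
  have h3 := h.big.h3
  have hε := h.e0
  have hL0 := h.L_pos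
  have hLM := h.L_le
  have ab := absorb h
  have hbl := h.big.hl
  have hbp := h.big.hp
  have hM0 : 0 < M := by linarith
  have hSm := small_part hm hCT hT hC1 hB h
  have hA2 : ((Real.log M) ^ (A + 2)) ≤ M ^ ε :=
    (pow_le_pow_right₀ (by linarith) (by omega)).trans hbp
  set x := Real.log M with hx
  have hx0 : 0 < x := by linarith
  set T := L * M / x ^ A with hT'
  have hT0 : 0 ≤ T := by positivity
  set D := x ^ (A + 2) with hD
  have hD0 : 0 < D := by positivity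
  have hD4 : 4 ≤ D := by
    calc (4 : ℝ) ≤ x ^ 1 := by rw [pow_one]; linarith
      _ ≤ x ^ (A + 2) := pow_le_pow_right₀ (by linarith) (by omega)
  have hDL : L ^ 2 * D ≤ M ^ 2 := by
    have e1 : L ^ 2 ≤ M ^ (2 - 2 * ε) := by
      calc L ^ 2 ≤ (M ^ (1 - ε)) ^ 2 := by
            have := h.L2
            gcongr
        _ = M ^ (2 - 2 * ε) := by
            rw [← Real.rpow_natCast, ← Real.rpow_mul hM0.le]
            congr 1
            push_cast
            ring
    calc L ^ 2 * D ≤ M ^ (2 - 2 * ε) * M ^ ε := by gcongr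
      _ = M ^ (2 - ε) := by
          rw [← Real.rpow_add hM0]
          congr 1
          ring
      _ ≤ M ^ (2 : ℝ) := Real.rpow_le_rpow_of_exponent_le (by linarith) (by linarith)
      _ = M ^ 2 := by
          rw [← Real.rpow_natCast]
          norm_num
  set N := ⌈Real.sqrt (2 * M ^ 2)⌉₊ with hN
  have hN1 : Real.sqrt (2 * M ^ 2) ≤ N := Nat.le_ceil _
  have hN2 : 1 + Real.log N ≤ 3 * x := by
    have e1 : (N : ℝ) ≤ M ^ 2 := by
      have e2 := Nat.ceil_lt_add_one (Real.sqrt_nonneg (2 * M ^ 2))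
      have e3 : Real.sqrt (2 * M ^ 2) ≤ 2 * M := by
        apply Real.sqrt_le_iff.2
        refine ⟨by linarith, ?_⟩
        nlinarith [sq_nonneg M]
      nlinarith
    have e4 : (0 : ℝ) < N := by
      refine lt_of_lt_of_le ?_ hN1
      positivity
    have e5 := Real.log_le_log e4 e1
    rw [Real.log_pow] at e5
    push_cast at e5
    linarith
  set n := ⌊D⌋₊ with hn
  have hn1 : (n : ℝ) ≤ D := Nat.floor_le hD0.le
  have hn2 : D / 2 ≤ n := by
    have := Nat.lt_floor_add_one D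
    linarith
  have hn3 : 1 ≤ n := by
    have : (0 : ℝ) < n := by linarith
    exact_mod_cast this
  have hn4 : (1 : ℝ) / n ≤ 2 / D := by
    rw [div_le_div_iff₀ (by exact_mod_cast hn3) hD0]
    linarith
  rw [SI_eq hm M Y W D lam N hN1]
  refine (abs_add_le _ _).trans ?_
  -- the three parts
  have p1 := smooth hm hB W D M Y L lam h3 hD4 hL0.le hLM hDL h.hlam
  have p2 := large_part hm hC1 hB W D M Y L lam h3 hD0.le hL0.le hLM h.hlam n N hn3 hN2
  have p3 := hSm n hn1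
  have q1 : |∑ g ∈ Icc 1 N, mu ((g : ℕ) : ZI) * Tg W D M Y (2 * M ^ 2) g lam| ≤
      ∑ g ∈ Icc 1 n, |Tg W D M Y (2 * M ^ 2) g lam| + ∑ g ∈ Ioc n N, |Tg W D M Y (2 * M ^ 2) g lam| := by
    refine (abs_sum_le_sum_abs _ _).trans ?_
    have e1 : ∀ g ∈ Icc 1 N, |mu ((g : ℕ) : ZI) * Tg W D M Y (2 * M ^ 2) g lam| ≤
        |Tg W D M Y (2 * M ^ 2) g lam| := by
      intro g _
      rw [abs_mul]
      have := abs_mu_le ((g : ℕ) : ZI)
      have := abs_nonneg (Tg W D M Y (2 * M ^ 2) g lam)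
      nlinarith
    refine (sum_le_sum e1).trans ?_
    rw [← sum_union]
    · apply sum_le_sum_of_subset_of_nonneg
      · intro g hg
        rw [mem_Icc] at hg
        rw [mem_union, mem_Icc, mem_Ioc]
        omega
      · intro g _ _
        exact abs_nonneg _
    · rw [disjoint_left]
      intro g hg hg'
      rw [mem_Icc] at hg
      rw [mem_Ioc] at hg'
      omega
  -- elementary bounds
  have r1 : L * M / D * x ^ 2 = T := by
    rw [hT', hD, pow_add]
    field_simp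
  have r2 := (ab 2 (by omega)).1
  have r3 := (ab 1 (by omega)).2
  have r4 := (ab 3 (by omega)).1
  have r5 := (ab 2 (by omega)).2
  have r6 := (ab (A + 6) (by omega)).1
  have r7 := (ab (A + 5) (by omega)).2
  have s1 : 2 * (12 * x * (C1 * (L * (3 * M / D + 1) * (2 * x) + M * Real.sqrt M))) ≤ 216 * C1 * T := by
    have e1 : 2 * (12 * x * (C1 * (L * (3 * M / D + 1) * (2 * x) + M * Real.sqrt M))) =
        24 * C1 * (6 * (L * M / D * x ^ 2) + 2 * (L * x ^ 2) + M * Real.sqrt M * x ^ 1) := by ring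
    rw [e1, r1]
    have e2 : 6 * T + 2 * (L * x ^ 2) + M * Real.sqrt M * x ^ 1 ≤ 9 * T := by linarith
    calc 24 * C1 * (6 * T + 2 * (L * x ^ 2) + M * Real.sqrt M * x ^ 1) ≤ 24 * C1 * (9 * T) := by gcongr
      _ = 216 * C1 * T := by ring
  have s2 : 12 * x * (C1 * ((2 * L * M * (1 / n) + L * (3 * x)) * (2 * x) + M * Real.sqrt M * (3 * x))) ≤
      204 * C1 * T := by
    have e0 : 2 * L * M * (1 / n) ≤ 2 * L * M * (2 / D) := by gcongr
    calc 12 * x * (C1 * ((2 * L * M * (1 / n) + L * (3 * x)) * (2 * x) + M * Real.sqrt M * (3 * x))) ≤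
        12 * x * (C1 * ((2 * L * M * (2 / D) + L * (3 * x)) * (2 * x) + M * Real.sqrt M * (3 * x))) := by gcongr
      _ = 12 * C1 * (8 * (L * M / D * x ^ 2) + 6 * (L * x ^ 3) + 3 * (M * Real.sqrt M * x ^ 2)) := by ring
      _ = 12 * C1 * (8 * T + 6 * (L * x ^ 3) + 3 * (M * Real.sqrt M * x ^ 2)) := by rw [r1]
      _ ≤ 12 * C1 * (17 * T) := by
          have : 8 * T + 6 * (L * x ^ 3) + 3 * (M * Real.sqrt M * x ^ 2) ≤ 17 * T := by linarith
          gcongr
      _ = 204 * C1 * T := by ring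
  have s3 : D * ((3 * x) * ((3 * x) *
      (96 * Real.sqrt CT * x * (L * M) / (x / 2) ^ (2 * A + 5) +
      16 * x * (C1 * (L * (8 * M / (x / 2) ^ (2 * A + 6) + 1) * (2 * x) + M * Real.sqrt M))))) ≤
      (864 * 2 ^ (2 * A + 5) * Real.sqrt CT + 144 * C1 * (16 * 2 ^ (2 * A + 6) + 3)) * T := by
    have e1 : D * ((3 * x) * ((3 * x) * (96 * Real.sqrt CT * x * (L * M) / (x / 2) ^ (2 * A + 5)))) =
        864 * 2 ^ (2 * A + 5) * Real.sqrt CT * T := by
      rw [hD, hT', div_pow]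
      have : x ^ (2 * A + 5) = x ^ (A + 2) * x ^ 3 * x ^ A := by
        rw [← pow_add, ← pow_add]
        congr 1
        omega
      rw [this]
      field_simp
      ring
    have e2 : D * ((3 * x) * ((3 * x) * (16 * x * (C1 * (L * (8 * M / (x / 2) ^ (2 * A + 6)) * (2 * x)))))) =
        144 * C1 * (16 * 2 ^ (2 * A + 6)) * T := by
      rw [hD, hT', div_pow]
      have : x ^ (2 * A + 6) = x ^ (A + 2) * x ^ 4 * x ^ A := by
        rw [← pow_add, ← pow_add]
        congr 1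
        omega
      rw [this]
      field_simp
      ring
    have e3 : D * ((3 * x) * ((3 * x) * (16 * x * (C1 * (L * (2 * x)))))) = 144 * C1 * (2 * (L * x ^ (A + 6))) := by
      rw [hD, show A + 6 = (A + 2) + 4 by omega, pow_add x (A + 2) 4]
      ring
    have e4 : D * ((3 * x) * ((3 * x) * (16 * x * (C1 * (M * Real.sqrt M))))) =
        144 * C1 * (M * Real.sqrt M * x ^ (A + 5)) := by
      rw [hD, show A + 5 = (A + 2) + 3 by omega, pow_add x (A + 2) 3]
      ring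
    have e5 : D * ((3 * x) * ((3 * x) *
      (96 * Real.sqrt CT * x * (L * M) / (x / 2) ^ (2 * A + 5) +
      16 * x * (C1 * (L * (8 * M / (x / 2) ^ (2 * A + 6) + 1) * (2 * x) + M * Real.sqrt M))))) =
      D * ((3 * x) * ((3 * x) * (96 * Real.sqrt CT * x * (L * M) / (x / 2) ^ (2 * A + 5)))) +
      D * ((3 * x) * ((3 * x) * (16 * x * (C1 * (L * (8 * M / (x / 2) ^ (2 * A + 6)) * (2 * x)))))) +
      D * ((3 * x) * ((3 * x) * (16 * x * (C1 * (L * (2 * x)))))) +
      D * ((3 * x) * ((3 * x) * (16 * x * (C1 * (M * Real.sqrt M))))) := by ring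
    rw [e5, e1, e2, e3, e4]
    have e6 : 144 * C1 * (2 * (L * x ^ (A + 6))) + 144 * C1 * (M * Real.sqrt M * x ^ (A + 5)) ≤ 144 * C1 * (3 * T) := by
      rw [← mul_add]
      have : 2 * (L * x ^ (A + 6)) + M * Real.sqrt M * x ^ (A + 5) ≤ 3 * T := by linarith
      gcongr
    have e7 : (864 * 2 ^ (2 * A + 5) * Real.sqrt CT + 144 * C1 * (16 * 2 ^ (2 * A + 6) + 3)) * T =
        864 * 2 ^ (2 * A + 5) * Real.sqrt CT * T + 144 * C1 * (16 * 2 ^ (2 * A + 6)) * T + 144 * C1 * (3 * T) := by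
      ring
    rw [e7]
    linarith
  have e8 : (216 * C1 + 204 * C1 + 864 * 2 ^ (2 * A + 5) * Real.sqrt CT +
      144 * C1 * (16 * 2 ^ (2 * A + 6) + 3)) * T = 216 * C1 * T + 204 * C1 * T +
      (864 * 2 ^ (2 * A + 5) * Real.sqrt CT + 144 * C1 * (16 * 2 ^ (2 * A + 6) + 3)) * T := by ring
  rw [e8]
  linarith

/-- the trivial bound -/
theorem SI_trivial (hm : S_MUB) {M Y W L : ℝ} {lam : ℤ → ℝ} (hM : 3 ≤ M) (hlam : Lm L lam) :
    |SI M Y W lam| ≤ (9 * (2 * M ^ 2)) * ((9 * (2 * M ^ 2)) * (12 * Real.log M)) := by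
  have hlog : 0 < Real.log M := Real.log_pos (by linarith)
  have hc : ((bl (2 * M ^ 2)).card : ℝ) ≤ 9 * (2 * M ^ 2) := card_bl _ (by nlinarith)
  unfold SI
  refine (abs_sum_le_sum_abs _ _).trans ?_
  have h1 : ∀ b ∈ (bl (2 * M ^ 2)).filter (fun b => Y < nz b),
      |∑ v ∈ bl (2 * M ^ 2), mu b * aW W v * Fz lam M (b * v)| ≤ (9 * (2 * M ^ 2)) * (12 * Real.log M) := by
    intro b _
    refine (abs_sum_le_sum_abs _ _).trans ?_
    have h2 : ∀ v ∈ bl (2 * M ^ 2), |mu b * aW W v * Fz lam M (b * v)| ≤ 12 * Real.log M := by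
      intro v hv
      have a1 := aW_nonneg hm W v
      have a2 := aW_le hm W ((mem_bl _ _).1 hv).1
      have a3 := log_two_sq hM hv
      have a4 : |Fz lam M (b * v)| ≤ 1 := by
        unfold Fz
        split_ifs
        · exact hlam.1 _
        · simp
      have a5 := abs_mu_le b
      rw [abs_mul, abs_mul, abs_of_nonneg a1]
      calc |mu b| * aW W v * |Fz lam M (b * v)| ≤ 1 * aW W v * 1 := by gcongr
        _ ≤ 12 * Real.log M := by linarith
    refine (sum_le_sum h2).trans ?_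
    rw [sum_const, nsmul_eq_mul]
    gcongr
  refine (sum_le_sum h1).trans ?_
  rw [sum_const, nsmul_eq_mul]
  have h4 : (((bl (2 * M ^ 2)).filter (fun b => Y < nz b)).card : ℝ) ≤ 9 * (2 * M ^ 2) := by
    refine le_trans ?_ hc
    exact_mod_cast card_filter_le _ _
  gcongr

theorem ii (hm : S_MUB) (_h0 : S_DVB) (h1 : S_T) (h2 : S_DIV) : S_II := by
  intro ε A hε
  obtain ⟨CT, hCT, hT⟩ := h1 (ε / 2) (2 * (2 * A + 5)) (2 * A + 6) (by linarith)
  obtain ⟨C1, hC1, hB⟩ := box h2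
  obtain ⟨M0, hM0, hbig⟩ := exists_big hε A
  set K := 216 * C1 + 204 * C1 + 864 * 2 ^ (2 * A + 5) * Real.sqrt CT +
      144 * C1 * (16 * 2 ^ (2 * A + 6) + 3) with hK
  have hlogM0 : 0 < Real.log M0 := Real.log_pos (by linarith)
  set K' := (9 * (2 * M0 ^ 2)) * ((9 * (2 * M0 ^ 2)) * (12 * Real.log M0)) * (Real.log M0) ^ A with hK'
  have hKp : 0 < K := by positivity
  have hKp' : 0 < K' := by positivity
  refine ⟨K + K', by positivity, ?_⟩
  intro M L Y W lam hM hL1 hL2 hY hW hlam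
  have hMp : 0 < M := by linarith
  have hlog : 0 < Real.log M := Real.log_pos (by linarith)
  have hL0 : 1 ≤ L := by
    refine le_trans ?_ hL1
    exact Real.one_le_rpow (by linarith) (by linarith)
  have hε4 : ε ≤ 1 / 4 := by
    have e1 := hL1.trans hL2
    rw [Real.rpow_le_rpow_left_iff (by linarith)] at e1
    linarith
  have e0 : 0 ≤ L * M / (Real.log M) ^ A := by positivity
  have e3 : (K + K') * L * M / (Real.log M) ^ A = K * (L * M / (Real.log M) ^ A) +
      K' * (L * M / (Real.log M) ^ A) := by ring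
  rw [e3]
  change |SI M Y W lam| ≤ _
  by_cases hc : M0 ≤ M
  · have key := main_large hm hCT hT hC1 hB (⟨hbig M hc, hε, hε4, hL1, hL2, hY, hW, hlam⟩ : Par ε A M L Y W lam)
    have : 0 ≤ K' * (L * M / (Real.log M) ^ A) := by positivity
    linarith
  · have hc' := (not_le.1 hc).le
    have key := SI_trivial hm (Y := Y) (W := W) hM hlam
    have l1 : Real.log M ≤ Real.log M0 := Real.log_le_log hMp hc'
    have l2 : (9 * (2 * M ^ 2)) * ((9 * (2 * M ^ 2)) * (12 * Real.log M)) ≤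
        (9 * (2 * M0 ^ 2)) * ((9 * (2 * M0 ^ 2)) * (12 * Real.log M0)) := by
      gcongr
    have l3 : (9 * (2 * M0 ^ 2)) * ((9 * (2 * M0 ^ 2)) * (12 * Real.log M0)) ≤
        K' * (L * M / (Real.log M) ^ A) := by
      rw [hK', mul_assoc ((9 * (2 * M0 ^ 2)) * ((9 * (2 * M0 ^ 2)) * (12 * Real.log M0)))]
      apply le_mul_of_one_le_right (by positivity)
      rw [← mul_div_assoc, le_div_iff₀ (by positivity), one_mul]
      have l4 : (Real.log M) ^ A ≤ (Real.log M0) ^ A := pow_le_pow_left₀ hlog.le l1 A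
      have l5 : 1 ≤ L * M := by nlinarith
      nlinarith [pow_pos hlogM0 A]
    have : 0 ≤ K * (L * M / (Real.log M) ^ A) := by positivity
    linarith

end Pool.Agent.N277.GN
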